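import Pool.Agent.HPR.Defs
import Pool.Agent.LRP.Main

/-!
# Linearly reducible families are half-plane reducible (MP_725b61_nt)
-/

set_option autoImplicit false

namespace HPR

open MeasureTheory LRP

variable {A : Subfield ℂ}

theorem imp_evz_rename {n : ℕ} (G : MvPolynomial (Fin n) A) (z : ℂ) (x : Fin n → ℝ) :
    evz (MvPolynomial.rename Fin.succ G) z x = ev G x := by
  unfold evz ev
  rw [MvPolynomial.aeval_rename]
  rfl

theorem imp_evz_lin {n : ℕ} (M b : MvPolynomial (Fin n) A) (z : ℂ) (x : Fin n → ℝ) :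
    evz (lin M b) z x = ev M x * z + ev b x := by
  have h : evz (lin M b) z x = evz (MvPolynomial.rename Fin.succ M) z x *
      evz (MvPolynomial.X 0 : MvPolynomial (Fin (n + 1)) A) z x + evz (MvPolynomial.rename Fin.succ b) z x := by
    unfold evz lin
    rw [map_add, map_mul]
  rw [h, imp_evz_rename, imp_evz_rename]
  congr 2
  unfold evz
  rw [MvPolynomial.aeval_X]
  rfl

theorem imp_fse_rename {n : ℕ} (G : MvPolynomial (Fin n) A) :
    MvPolynomial.finSuccEquiv A n (MvPolynomial.rename Fin.succ G) = Polynomial.C G := by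
  induction G using MvPolynomial.induction_on with
  | C a =>
    rw [MvPolynomial.rename_C, MvPolynomial.finSuccEquiv_apply, MvPolynomial.eval₂Hom_C]
    rfl
  | add p q hp hq => rw [map_add, map_add, hp, hq, map_add]
  | mul_X p i hp =>
    rw [map_mul, map_mul, hp, MvPolynomial.rename_X, MvPolynomial.finSuccEquiv_X_succ, map_mul]

theorem imp_lc_rename {n : ℕ} (G : MvPolynomial (Fin n) A) :
    lc (MvPolynomial.rename Fin.succ G) = G := by
  unfold lc
  rw [imp_fse_rename, Polynomial.leadingCoeff_C]

theorem imp_lc_lin {n : ℕ} (M b : MvPolynomial (Fin n) A) (hM : M ≠ 0) :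
    lc (lin M b) = M := by
  unfold lc lin
  rw [map_add, map_mul, imp_fse_rename, imp_fse_rename, MvPolynomial.finSuccEquiv_X_zero,
    Polynomial.leadingCoeff_linear hM]

theorem imp_im {m b z : ℂ} (h : m * z + b = 0) :
    (m * (starRingEnd ℂ) b).im = Complex.normSq m * z.im := by
  have hb : b = -(m * z) := by linear_combination h
  rw [hb, map_neg, map_mul]
  have h1 : m * -((starRingEnd ℂ) m * (starRingEnd ℂ) z) =
      -((m * (starRingEnd ℂ) m) * (starRingEnd ℂ) z) := by ring
  rw [h1, Complex.mul_conj, Complex.neg_im, Complex.im_ofReal_mul, Complex.conj_im]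
  ring

theorem imp_up {n : ℕ} {M b : MvPolynomial (Fin n) A} (hM : ∀ x : Fin n → ℝ, ev M x ≠ 0)
    (h : Upper M b) : Up (lin M b) := by
  intro x z hz
  rw [imp_evz_lin] at hz
  have h1 := h x
  rw [imp_im hz] at h1
  exact (mul_pos_iff_of_pos_left (Complex.normSq_pos.2 (hM x))).1 h1

theorem imp_low {n : ℕ} {M b : MvPolynomial (Fin n) A} (hM : ∀ x : Fin n → ℝ, ev M x ≠ 0)
    (h : Lower M b) : Low (lin M b) := by
  intro x z hz
  rw [imp_evz_lin] at hz
  have h1 := h x
  rw [imp_im hz] at h1
  have h2 := Complex.normSq_pos.2 (hM x)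
  by_contra h3
  push Not at h3
  have h4 := mul_nonneg h2.le h3
  linarith

theorem imp_root {n : ℕ} {M b : MvPolynomial (Fin n) A} (hM : ∀ x : Fin n → ℝ, ev M x ≠ 0)
    (x : Fin n → ℝ) : evz (lin M b) (-ev b x / ev M x) x = 0 := by
  rw [imp_evz_lin]
  have := hM x
  field_simp
  ring

/-- Linearly reducible families are half-plane reducible. -/
theorem imp (A : Subfield ℂ) (n : ℕ) (S : Set (MvPolynomial (Fin n) A)) (hS : LRP.Red n S) :
    Red n S := by
  induction n with
  | zero => exact hS
  | succ n ih =>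
    obtain ⟨T, hT, h1, h2⟩ := hS
    have hne : ∀ G ∈ Prods T, ∀ x : Fin n → ℝ, ev G x ≠ 0 := prods_ne (red_ne n hT)
    refine ⟨T, ih T hT, ?_, ?_⟩
    · intro F hF
      rcases h1 F hF with ⟨G, hG, rfl⟩ | ⟨M, hM, b, rfl, h3⟩
      · refine ⟨?_, Or.inl fun x z hz => ?_⟩
        · rw [imp_lc_rename]
          exact hG
        · rw [imp_evz_rename] at hz
          exact absurd hz (hne G hG x)
      · have hM0 : M ≠ 0 := by
          intro h0
          apply hne M hM (fun _ => 0)
          rw [h0, ev_eq, map_zero]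
        refine ⟨?_, ?_⟩
        · rw [imp_lc_lin M b hM0]
          exact hM
        · rcases h3 with h3 | h3
          · exact Or.inl (imp_up (hne M hM) h3)
          · exact Or.inr (imp_low (hne M hM) h3)
    · intro F hF F' hF' hU hL
      rcases h1 F hF with ⟨G, hG, rfl⟩ | ⟨M, hM, b, rfl, h3⟩
      · exact ⟨1, 0, G, hG, by rw [one_mul, zero_mul, add_zero]⟩
      rcases h1 F' hF' with ⟨G, hG, rfl⟩ | ⟨M', hM', b', rfl, h3'⟩
      · exact ⟨0, 1, G, hG, by rw [one_mul, zero_mul, zero_add]⟩
      have hup : Upper M b := by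
        rcases h3 with h3 | h3
        · exact h3
        · exfalso
          have e1 := imp_root (b := b) (hne M hM) (fun _ => 0)
          have e2 := hU _ _ e1
          have e3 := imp_low (hne M hM) h3 _ _ e1
          exact lt_asymm e2 e3
      have hlow : Lower M' b' := by
        rcases h3' with h3 | h3
        · exfalso
          have e1 := imp_root (b := b') (hne M' hM') (fun _ => 0)
          have e2 := hL _ _ e1
          have e3 := imp_up (hne M' hM') h3 _ _ e1
          exact lt_asymm e2 e3
        · exact h3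
      refine ⟨-MvPolynomial.rename Fin.succ M', MvPolynomial.rename Fin.succ M,
        M * b' - M' * b, h2 M b M' b' hF hF' hup hlow, ?_⟩
      unfold lin
      rw [map_sub, map_mul, map_mul]
      ring

end HPR
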