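import Pool.Agent.Helper23.PlaneWave

/-!
# The integral over a line of a quotient with coprime half-plane denominators
-/

set_option autoImplicit false

open MeasureTheory Polynomial Filter Topology

namespace HPR

open Pool.Agent.Helper23.PlaneWave in
theorem exists_fin_roots (Q : ℂ[X]) (hQ : Q.Monic) :
    ∃ α : Fin Q.natDegree → ℂ, (∀ z : ℂ, Q.eval z = ∏ i, (z - α i)) ∧ ∀ i, Q.eval (α i) = 0 := by
  have hs : Q.Splits := IsAlgClosed.splits Q
  have h2 : Q.natDegree = Q.roots.toList.length := by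
    rw [hs.natDegree_eq_card_roots]
    simp
  have h3 : ∀ z : ℂ, Q.eval z = (Q.roots.toList.map (fun a => z - a)).prod := by
    intro z
    rw [hs.eval_eq_prod_roots_of_monic hQ]
    conv_lhs => rw [← Multiset.coe_toList Q.roots]
    rw [Multiset.map_coe, Multiset.prod_coe]
  have h4 : ∀ z : ℂ, Q.eval z = ∏ i : Fin Q.natDegree, (z - Q.roots.toList.get (i.cast h2)) := by
    intro z
    rw [h3 z]
    generalize Q.roots.toList = l at h2
    generalize Q.natDegree = n at h2
    subst h2
    simp only [Fin.cast_refl, id]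
    rw [← List.prod_ofFn]
    congr 1
    rw [← List.ofFn_get l]
    simp
  refine ⟨fun i => Q.roots.toList.get (i.cast h2), h4, fun i => ?_⟩
  rw [h4]
  exact Finset.prod_eq_zero (Finset.mem_univ i) (sub_self _)

open Pool.Agent.Helper23.PlaneWave in
/-- SL: the slice lemma for two coprime monic polynomials. -/
theorem slice {R : Type*} [CommRing R] [Nontrivial R] (F B p : R[X]) (hF : F.Monic) (hB : B.Monic)
    (h : IsCoprime F B) :
    ∃ G : R, ∀ φ : R →+* ℂ, (∀ z : ℂ, (F.map φ).eval z = 0 → 0 < z.im) →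
      (∀ z : ℂ, (B.map φ).eval z = 0 → z.im < 0) →
      Integrable (fun t : ℝ => (p.map φ).eval (t : ℂ) /
        ((F.map φ).eval (t : ℂ) * (B.map φ).eval (t : ℂ))) →
      ∫ t : ℝ, (p.map φ).eval (t : ℂ) / ((F.map φ).eval (t : ℂ) * (B.map φ).eval (t : ℂ)) =
        Real.pi * (Complex.I * φ G) := by
  obtain ⟨U, V, hUV⟩ := h
  set r1 := (p * V) %ₘ F with hr1
  set r2 := (p * U) %ₘ B with hr2
  refine ⟨r1.coeff (F.natDegree - 1) - r2.coeff (B.natDegree - 1), ?_⟩
  intro φ hα hβ hint
  set q := (p * V) /ₘ F + (p * U) /ₘ B with hq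
  have key : p = q * F * B + r1 * B + r2 * F := by
    have h1 := modByMonic_add_div (p * V) F
    have h2 := modByMonic_add_div (p * U) B
    rw [hq]
    linear_combination (-B) * h1 - F * h2 - p * hUV
  have hFm : (F.map φ).Monic := hF.map φ
  have hBm : (B.map φ).Monic := hB.map φ
  have hFn : (F.map φ).natDegree = F.natDegree := hF.natDegree_map φ
  have hBn : (B.map φ).natDegree = B.natDegree := hB.natDegree_map φ
  obtain ⟨α, hα1, hα2⟩ := exists_fin_roots (F.map φ) hFm
  obtain ⟨β, hβ1, hβ2⟩ := exists_fin_roots (B.map φ) hBm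
  have hαi : ∀ i, 0 < (α i).im := fun i => hα _ (hα2 i)
  have hβi : ∀ i, (β i).im < 0 := fun i => hβ _ (hβ2 i)
  have hA0 : ∀ t : ℝ, (F.map φ).eval (t : ℂ) ≠ 0 := by
    intro t h0
    have := hα _ h0
    simp at this
  have hB0 : ∀ t : ℝ, (B.map φ).eval (t : ℂ) ≠ 0 := by
    intro t h0
    have := hβ _ h0
    simp at this
  set w : ℝ → ℂ := fun t => (p.map φ).eval (t : ℂ) /
        ((F.map φ).eval (t : ℂ) * (B.map φ).eval (t : ℂ)) with hw
  have hwe : ∀ t : ℝ, w t = (q.map φ).eval (t : ℂ) +
      (r1.map φ).eval (t : ℂ) / (F.map φ).eval (t : ℂ) +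
      (r2.map φ).eval (t : ℂ) / (B.map φ).eval (t : ℂ) := by
    intro t
    have h1 := congrArg (fun f => (f.map φ).eval (t : ℂ)) key
    simp only [Polynomial.map_mul, Polynomial.map_add, eval_mul, eval_add] at h1
    simp only [hw]
    have ha := hA0 t
    have hb := hB0 t
    rw [h1]
    field_simp
  have cp : ∀ g : ℂ[X], Continuous (fun t : ℝ => g.eval (t : ℂ)) := fun g =>
    g.continuous.comp Complex.continuous_ofReal
  have c1 : Continuous (fun t : ℝ => (r1.map φ).eval (t : ℂ) / (F.map φ).eval (t : ℂ)) :=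
    (cp _).div (cp _) hA0
  have c2 : Continuous (fun t : ℝ => (r2.map φ).eval (t : ℂ) / (B.map φ).eval (t : ℂ)) :=
    (cp _).div (cp _) hB0
  have c3 : Continuous (fun t : ℝ => (q.map φ).eval (t : ℂ)) := cp _
  have t0 : Tendsto (fun T : ℝ => ∫ t in (-T)..T, w t) atTop (𝓝 (∫ t, w t)) :=
    intervalIntegral_tendsto_integral hint tendsto_neg_atTop_atBot tendsto_id
  have t1 := tendsto_integral_upper Finset.univ α (fun i _ => hαi i) (r1.map φ) (by
      refine lt_of_le_of_lt degree_map_le ?_
      rw [Finset.card_univ, Fintype.card_fin, hFn, ← degree_eq_natDegree hF.ne_zero]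
      exact degree_modByMonic_lt _ hF)
  have t2 := tendsto_integral_lower Finset.univ β (fun j _ => hβi j) (r2.map φ) (by
      refine lt_of_le_of_lt degree_map_le ?_
      rw [Finset.card_univ, Fintype.card_fin, hBn, ← degree_eq_natDegree hB.ne_zero]
      exact degree_modByMonic_lt _ hB)
  simp_rw [← hα1] at t1
  simp_rw [← hβ1] at t2
  have t3 := (t0.sub t1).sub t2
  have e3 : (fun T : ℝ => (∫ t in (-T)..T, w t) -
      (∫ t in (-T)..T, (r1.map φ).eval (t : ℂ) / (F.map φ).eval (t : ℂ)) -
      (∫ t in (-T)..T, (r2.map φ).eval (t : ℂ) / (B.map φ).eval (t : ℂ))) =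
      fun T : ℝ => ∫ t in (-T)..T, (q.map φ).eval (t : ℂ) := by
    funext T
    simp_rw [hwe]
    rw [intervalIntegral.integral_add, intervalIntegral.integral_add]
    · ring
    · exact c3.intervalIntegrable _ _
    · exact c1.intervalIntegrable _ _
    · exact (c3.add c1).intervalIntegrable _ _
    · exact c2.intervalIntegrable _ _
  rw [e3] at t3
  have t4 := polynomial_pv_zero _ _ t3
  rw [Finset.card_univ, Finset.card_univ, Fintype.card_fin, Fintype.card_fin, hFn, hBn,
    coeff_map, coeff_map] at t4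
  rw [map_sub]
  linear_combination t4

end HPR
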