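import Pool.Agent.HPR.Defs
import Pool.Agent.HPR.SL
import Pool.Agent.LRP.Main

/-!
# The integral theorem for half-plane reducible families
-/

set_option autoImplicit false

namespace HPR

open MeasureTheory LRP

variable {A : Subfield ℂ}

theorem evz_eq {n : ℕ} (F : MvPolynomial (Fin (n + 1)) A) (z : ℂ) (x : Fin n → ℝ) :
    evz F z x = ((MvPolynomial.finSuccEquiv A n F).map (evHom x)).eval z := by
  unfold evz
  induction F using MvPolynomial.induction_on with
  | C a =>
    rw [MvPolynomial.finSuccEquiv_apply]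
    simp [evHom]
  | add p q hp hq => simp only [map_add, Polynomial.map_add, Polynomial.eval_add, hp, hq]
  | mul_X p i hp =>
    rw [map_mul, map_mul, Polynomial.map_mul, Polynomial.eval_mul, hp]
    congr 1
    refine Fin.cases ?_ (fun j => ?_) i
    · rw [MvPolynomial.finSuccEquiv_X_zero]; simp
    · rw [MvPolynomial.finSuccEquiv_X_succ]; simp [evHom]

theorem ev_cons {n : ℕ} (F : MvPolynomial (Fin (n + 1)) A) (t : ℝ) (x : Fin n → ℝ) :
    ev F (Fin.cons t x) = evz F (t : ℂ) x := by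
  unfold ev evz
  congr 2
  funext k
  refine Fin.cases ?_ (fun j => ?_) k
  · simp
  · simp

theorem up_ne {n : ℕ} {F : MvPolynomial (Fin (n + 1)) A} (h : Up F ∨ Low F)
    (x : Fin (n + 1) → ℝ) : ev F x ≠ 0 := by
  intro h0
  have hx : x = Fin.cons (x 0) (fun k => x k.succ) := by
    funext k
    refine Fin.cases ?_ (fun j => ?_) k
    · simp
    · simp
  rw [hx, ev_cons] at h0
  rcases h with h | h
  · have := h _ _ h0
    simp at this
  · have := h _ _ h0
    simp at this

theorem red_ne (n : ℕ) {S : Set (MvPolynomial (Fin n) A)} (hS : Red n S) :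
    ∀ F ∈ S, ∀ x : Fin n → ℝ, ev F x ≠ 0 := by
  cases n with
  | zero =>
    intro F hF x
    have h0 : F ≠ 0 := hS F hF
    rw [MvPolynomial.eq_C_of_isEmpty F] at h0 ⊢
    rw [ev_C]
    intro h
    apply h0
    have h1 : MvPolynomial.coeff 0 F = 0 := by exact_mod_cast h
    rw [h1, map_zero]
  | succ n =>
    intro F hF x
    obtain ⟨T, -, h1, -⟩ := hS
    exact up_ne (h1 F hF).2 x

theorem decomp {n : ℕ} {S : Set (MvPolynomial (Fin (n + 1)) A)}
    (h1 : ∀ F ∈ S, Up F ∨ Low F)
    {D : MvPolynomial (Fin (n + 1)) A} (hD : D ∈ Prods S) :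
    ∃ (a : A) (U L : Type) (_ : Fintype U) (_ : Fintype L)
      (Fu : U → MvPolynomial (Fin (n + 1)) A) (Fl : L → MvPolynomial (Fin (n + 1)) A),
      a ≠ 0 ∧ (∀ u, Fu u ∈ S ∧ Up (Fu u)) ∧ (∀ l, Fl l ∈ S ∧ Low (Fl l)) ∧
      D = MvPolynomial.C a * (∏ u, Fu u) * ∏ l, Fl l := by
  unfold Prods at hD
  refine Submonoid.closure_induction (motive := fun D _ =>
    ∃ (a : A) (U L : Type) (_ : Fintype U) (_ : Fintype L)
      (Fu : U → MvPolynomial (Fin (n + 1)) A) (Fl : L → MvPolynomial (Fin (n + 1)) A),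
      a ≠ 0 ∧ (∀ u, Fu u ∈ S ∧ Up (Fu u)) ∧ (∀ l, Fl l ∈ S ∧ Low (Fl l)) ∧
      D = MvPolynomial.C a * (∏ u, Fu u) * ∏ l, Fl l) ?_ ?_ ?_ hD
  · rintro F (hF | ⟨a, ha, rfl⟩)
    · rcases h1 F hF with hs | hs
      · refine ⟨1, Unit, Fin 0, inferInstance, inferInstance, fun _ => F, Fin.elim0,
          one_ne_zero, fun _ => ⟨hF, hs⟩, fun u => u.elim0, ?_⟩
        simp
      · refine ⟨1, Fin 0, Unit, inferInstance, inferInstance, Fin.elim0, fun _ => F,
          one_ne_zero, fun u => u.elim0, fun _ => ⟨hF, hs⟩, ?_⟩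
        simp
    · refine ⟨a, Fin 0, Fin 0, inferInstance, inferInstance, Fin.elim0, Fin.elim0, ha,
        fun u => u.elim0, fun u => u.elim0, ?_⟩
      simp
  · refine ⟨1, Fin 0, Fin 0, inferInstance, inferInstance, Fin.elim0, Fin.elim0, one_ne_zero,
      fun u => u.elim0, fun u => u.elim0, ?_⟩
    simp
  · rintro F G _ _ ⟨a, U, L, _, _, Fu, Fl, ha, hu, hl, rfl⟩
      ⟨a', U', L', _, _, Fu', Fl', ha', hu', hl', rfl⟩
    refine ⟨a * a', U ⊕ U', L ⊕ L', inferInstance, inferInstance, Sum.elim Fu Fu',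
      Sum.elim Fl Fl', mul_ne_zero ha ha', ?_, ?_, ?_⟩
    · rintro (u | u)
      · exact hu u
      · exact hu' u
    · rintro (l | l)
      · exact hl l
      · exact hl' l
    · rw [Fintype.prod_sum_type, Fintype.prod_sum_type, map_mul]
      simp only [Sum.elim_inl, Sum.elim_inr]
      ring

theorem finSucc_rename {n : ℕ} (G : MvPolynomial (Fin n) A) :
    MvPolynomial.finSuccEquiv A n (MvPolynomial.rename Fin.succ G) = Polynomial.C G := by
  induction G using MvPolynomial.induction_on with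
  | C a =>
    rw [MvPolynomial.rename_C, MvPolynomial.finSuccEquiv_apply]
    simp
  | add p q hp hq => rw [map_add, map_add, hp, hq, Polynomial.C_add]
  | mul_X p i hp =>
    rw [map_mul, map_mul, hp, MvPolynomial.rename_X, MvPolynomial.finSuccEquiv_X_succ,
      Polynomial.C_mul]

theorem main (A : Subfield ℂ) (hI : Complex.I ∈ A) (n : ℕ) (S : Set (MvPolynomial (Fin n) A))
    (hS : Red n S) (P D : MvPolynomial (Fin n) A) (hD : D ∈ Prods S)
    (hint : Integrable (fun x : Fin n → ℝ => ev P x / ev D x)) :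
    ∃ a ∈ A, ∫ x, ev P x / ev D x = a * (Real.pi : ℂ) ^ n := by
  classical
  induction n with
  | zero =>
    refine ⟨((MvPolynomial.coeff 0 P : A) : ℂ) / ((MvPolynomial.coeff 0 D : A) : ℂ),
      A.div_mem (Subtype.coe_prop _) (Subtype.coe_prop _), ?_⟩
    have h0 : ∀ x : Fin 0 → ℝ, ev P x / ev D x =
        ((MvPolynomial.coeff 0 P : A) : ℂ) / ((MvPolynomial.coeff 0 D : A) : ℂ) := by
      intro x
      conv_lhs => rw [MvPolynomial.eq_C_of_isEmpty P, MvPolynomial.eq_C_of_isEmpty D]
      rw [ev_C, ev_C]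
    simp_rw [h0]
    have hv : (volume : Measure (Fin 0 → ℝ)) = Measure.dirac isEmptyElim :=
      Measure.pi_of_empty _ _
    rw [hv, integral_dirac]
    simp
  | succ n ih =>
    obtain ⟨hF1, hF2, hF3⟩ := Pool.Agent.Helper23.PlaneWave.fubini_cons _ hint
    obtain ⟨T, hT, h1, h2⟩ := hS
    obtain ⟨a, U, L, _, _, Fu, Fl, ha, hu, hl, rfl⟩ := decomp (fun F hF => (h1 F hF).2) hD
    have hne : ∀ D ∈ Prods T, ∀ x : Fin n → ℝ, ev D x ≠ 0 := prods_ne (red_ne n hT)
    let R := RatRing T hne
    let toR : MvPolynomial (Fin n) A →+* R :=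
      { toFun := fun Q => ⟨fun x => ev Q x, Q, 1, one_mem _, fun x => by rw [ev_one, div_one]⟩
        map_one' := by apply Subtype.ext; funext x; exact ev_one x
        map_mul' := fun Q Q' => by apply Subtype.ext; funext x; exact ev_mul Q Q' x
        map_zero' := by
          apply Subtype.ext; funext x
          show ev (0 : MvPolynomial (Fin n) A) x = 0
          rw [ev_eq, map_zero]
        map_add' := fun Q Q' => by apply Subtype.ext; funext x; exact ev_add Q Q' x }
    let φ : (Fin n → ℝ) → R →+* ℂ := fun x => (Pi.evalRingHom (fun _ => ℂ) x).comp R.subtype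
    have hφR : ∀ x (Q : MvPolynomial (Fin n) A), φ x (toR Q) = ev Q x := fun x Q => rfl
    have hφc : ∀ x, (φ x).comp toR = evHom x := fun x => RingHom.ext fun Q => rfl
    -- the inverse of a member of `Prods T`
    let iR : ∀ G, G ∈ Prods T → R := fun G hG => ⟨fun x => (ev G x)⁻¹, 1, G, hG,
      fun x => by rw [ev_one, one_div]⟩
    have hiR : ∀ G (hG : G ∈ Prods T), iR G hG * toR G = 1 := by
      intro G hG
      apply Subtype.ext
      funext x
      exact inv_mul_cancel₀ (hne G hG x)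
    have hφi : ∀ x G (hG : G ∈ Prods T), φ x (iR G hG) = (ev G x)⁻¹ := fun x G hG => rfl
    let ψ : MvPolynomial (Fin (n + 1)) A →+* Polynomial R :=
      (Polynomial.mapRingHom toR).comp
        ((MvPolynomial.finSuccEquiv A n : MvPolynomial (Fin (n + 1)) A ≃ₐ[A] _) :
          MvPolynomial (Fin (n + 1)) A →+* Polynomial (MvPolynomial (Fin n) A))
    have hψ : ∀ F, ψ F = (MvPolynomial.finSuccEquiv A n F).map toR := fun F => rfl
    have hψe : ∀ F x (z : ℂ), ((ψ F).map (φ x)).eval z = evz F z x := by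
      intro F x z
      rw [hψ, Polynomial.map_map, hφc, evz_eq]
    -- monic versions
    let mo : ∀ F, F ∈ S → Polynomial R := fun F hF =>
      Polynomial.C (iR (lc F) (h1 F hF).1) * ψ F
    have hmo : ∀ F (hF : F ∈ S), (mo F hF).Monic := by
      intro F hF
      have h3 : (ψ F).leadingCoeff = toR (lc F) := by
        rw [hψ, Polynomial.leadingCoeff_map_of_leadingCoeff_ne_zero]
        · rfl
        · intro h4
          have h5 := hiR (lc F) (h1 F hF).1
          change toR (lc F) = 0 at h4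
          rw [h4, mul_zero] at h5
          exact zero_ne_one h5
      have h6 : iR (lc F) (h1 F hF).1 * (ψ F).leadingCoeff = 1 := by
        rw [h3]
        exact hiR (lc F) (h1 F hF).1
      exact Polynomial.monic_C_mul_of_mul_leadingCoeff_eq_one h6
    have hmoe : ∀ F (hF : F ∈ S) x (z : ℂ),
        ((mo F hF).map (φ x)).eval z = (ev (lc F) x)⁻¹ * evz F z x := by
      intro F hF x z
      simp only [mo]
      rw [Polynomial.map_mul, Polynomial.map_C, Polynomial.eval_mul, Polynomial.eval_C, hψe]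
      rfl
    have hcop : ∀ F (hF : F ∈ S) F' (hF' : F' ∈ S), Up F → Low F' →
        IsCoprime (mo F hF) (mo F' hF') := by
      intro F hF F' hF' hU hL
      obtain ⟨V, W, G, hG, h3⟩ := h2 F hF F' hF' hU hL
      have h4 := congrArg ψ h3
      rw [map_add, map_mul, map_mul, hψ (MvPolynomial.rename Fin.succ G), finSucc_rename,
        Polynomial.map_C] at h4
      have e1 : Polynomial.C (toR (lc F)) * mo F hF = ψ F := by
        simp only [mo]
        rw [← mul_assoc, ← Polynomial.C_mul, mul_comm (toR _), hiR (lc F) (h1 F hF).1,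
          Polynomial.C_1, one_mul]
      have e2 : Polynomial.C (toR (lc F')) * mo F' hF' = ψ F' := by
        simp only [mo]
        rw [← mul_assoc, ← Polynomial.C_mul, mul_comm (toR _), hiR (lc F') (h1 F' hF').1,
          Polynomial.C_1, one_mul]
      refine ⟨Polynomial.C (iR G hG) * ψ V * Polynomial.C (toR (lc F)),
        Polynomial.C (iR G hG) * ψ W * Polynomial.C (toR (lc F')), ?_⟩
      have e3 : Polynomial.C (iR G hG) * Polynomial.C (toR G) = 1 := by
        rw [← Polynomial.C_mul, hiR G hG, Polynomial.C_1]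
      calc Polynomial.C (iR G hG) * ψ V * Polynomial.C (toR (lc F)) * mo F hF +
            Polynomial.C (iR G hG) * ψ W * Polynomial.C (toR (lc F')) * mo F' hF'
          = Polynomial.C (iR G hG) * (ψ V * (Polynomial.C (toR (lc F)) * mo F hF) +
            ψ W * (Polynomial.C (toR (lc F')) * mo F' hF')) := by ring
        _ = 1 := by rw [e1, e2, h4, e3]
    let PA : Polynomial R := ∏ u, mo (Fu u) (hu u).1
    let PB : Polynomial R := ∏ l, mo (Fl l) (hl l).1
    have hPA : PA.Monic := Polynomial.monic_prod_of_monic _ _ fun u _ => hmo (Fu u) (hu u).1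
    have hPB : PB.Monic := Polynomial.monic_prod_of_monic _ _ fun l _ => hmo (Fl l) (hl l).1
    have hPAB : IsCoprime PA PB := IsCoprime.prod_left fun u _ => IsCoprime.prod_right fun l _ =>
      hcop (Fu u) (hu u).1 (Fl l) (hl l).1 (hu u).2 (hl l).2
    obtain ⟨G, hG⟩ := slice PA PB (ψ P) hPA hPB hPAB
    have hPAe : ∀ x (z : ℂ), (PA.map (φ x)).eval z =
        ∏ u, ((ev (lc (Fu u)) x)⁻¹ * evz (Fu u) z x) := by
      intro x z
      simp only [PA]
      rw [Polynomial.map_prod, Polynomial.eval_prod]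
      exact Finset.prod_congr rfl fun u _ => hmoe (Fu u) (hu u).1 x z
    have hPBe : ∀ x (z : ℂ), (PB.map (φ x)).eval z =
        ∏ l, ((ev (lc (Fl l)) x)⁻¹ * evz (Fl l) z x) := by
      intro x z
      simp only [PB]
      rw [Polynomial.map_prod, Polynomial.eval_prod]
      exact Finset.prod_congr rfl fun l _ => hmoe (Fl l) (hl l).1 x z
    have hAup : ∀ x (z : ℂ), (PA.map (φ x)).eval z = 0 → 0 < z.im := by
      intro x z h3
      rw [hPAe, Finset.prod_eq_zero_iff] at h3
      obtain ⟨u, -, h4⟩ := h3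
      have h5 := inv_ne_zero (hne _ (h1 _ (hu u).1).1 x)
      exact (hu u).2 x z ((mul_eq_zero.mp h4).resolve_left h5)
    have hBlow : ∀ x (z : ℂ), (PB.map (φ x)).eval z = 0 → z.im < 0 := by
      intro x z h3
      rw [hPBe, Finset.prod_eq_zero_iff] at h3
      obtain ⟨l, -, h4⟩ := h3
      have h5 := inv_ne_zero (hne _ (h1 _ (hl l).1).1 x)
      exact (hl l).2 x z ((mul_eq_zero.mp h4).resolve_left h5)
    let K : MvPolynomial (Fin n) A := MvPolynomial.C a * (∏ u, lc (Fu u)) * ∏ l, lc (Fl l)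
    have hK : K ∈ Prods T := by
      refine mul_mem (mul_mem (Submonoid.subset_closure (Or.inr ⟨a, ha, rfl⟩))
        (prod_mem fun u _ => (h1 _ (hu u).1).1)) (prod_mem fun l _ => (h1 _ (hl l).1).1)
    have hf : ∀ (x : Fin n → ℝ) (t : ℝ),
        ev P (Fin.cons t x) / ev (MvPolynomial.C a * (∏ u, Fu u) * ∏ l, Fl l) (Fin.cons t x) =
        (ev K x)⁻¹ * (((ψ P).map (φ x)).eval (t : ℂ) /
          ((PA.map (φ x)).eval (t : ℂ) * (PB.map (φ x)).eval (t : ℂ))) := by
      intro x t
      have e5 : ev K x = (a : ℂ) * (∏ u, ev (lc (Fu u)) x) * ∏ l, ev (lc (Fl l)) x := by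
        simp only [K, ev_mul, ev_prod, ev_C]
      have e6 : ev (MvPolynomial.C a * (∏ u, Fu u) * ∏ l, Fl l) (Fin.cons t x) =
          ev K x * ((PA.map (φ x)).eval (t : ℂ) * (PB.map (φ x)).eval (t : ℂ)) := by
        rw [e5, hPAe, hPBe, ev_mul, ev_mul, ev_prod, ev_prod, ev_C, Finset.prod_mul_distrib,
          Finset.prod_mul_distrib, Finset.prod_inv_distrib, Finset.prod_inv_distrib]
        simp only [ev_cons]
        have n1 : ∏ u, ev (lc (Fu u)) x ≠ 0 :=
          Finset.prod_ne_zero_iff.mpr fun u _ => hne _ (h1 _ (hu u).1).1 x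
        have n2 : ∏ l, ev (lc (Fl l)) x ≠ 0 :=
          Finset.prod_ne_zero_iff.mpr fun l _ => hne _ (h1 _ (hl l).1).1 x
        field_simp
      rw [e6, hψe, ev_cons, div_eq_mul_inv, mul_inv, div_eq_mul_inv]
      ring
    have hg : ∃ P' : MvPolynomial (Fin n) A, ∃ D' ∈ Prods T, ∀ x,
        (ev K x)⁻¹ * (Complex.I * φ x G) = ev P' x / ev D' x := by
      have m1 : (fun x : Fin n → ℝ => (ev K x)⁻¹) ∈ R :=
        ⟨1, K, hK, fun x => by rw [ev_one, one_div]⟩
      have m2 : (fun _ : Fin n → ℝ => Complex.I) ∈ R :=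
        ⟨MvPolynomial.C ⟨Complex.I, hI⟩, 1, one_mem _, fun x => by rw [ev_C, ev_one, div_one]⟩
      have m3 : (fun x : Fin n → ℝ => φ x G) ∈ R := G.2
      exact mul_mem m1 (mul_mem m2 m3)
    obtain ⟨P', D', hD', hg'⟩ := hg
    have hslice : ∀ᵐ x : Fin n → ℝ, ∫ t : ℝ,
        ev P (Fin.cons t x) / ev (MvPolynomial.C a * (∏ u, Fu u) * ∏ l, Fl l) (Fin.cons t x) =
          (Real.pi : ℂ) * (ev P' x / ev D' x) := by
      filter_upwards [hF1] with x hx
      rw [← hg']
      simp_rw [hf] at hx ⊢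
      have hK0 : (ev K x)⁻¹ ≠ 0 := inv_ne_zero (hne _ hK x)
      rw [integrable_const_mul_iff (isUnit_iff_ne_zero.mpr hK0)] at hx
      rw [integral_const_mul, hG (φ x) (hAup x) (hBlow x) hx]
      ring
    have hpi : (Real.pi : ℂ) ≠ 0 := by exact_mod_cast Real.pi_ne_zero
    have hint' : Integrable (fun x : Fin n → ℝ => ev P' x / ev D' x) := by
      have h3 := hF2.congr hslice
      rwa [integrable_const_mul_iff (isUnit_iff_ne_zero.mpr hpi)] at h3
    obtain ⟨b, hb, hb'⟩ := ih T hT P' D' hD' hint'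
    refine ⟨b, hb, ?_⟩
    rw [hF3, integral_congr_ae hslice, integral_const_mul, hb']
    ring

end HPR
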