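import Pool.Agent.HPR.AsmCore
import Pool.Agent.HPR.Main
import Pool.Agent.HPR.Imp

/-!
# Half-plane reducible periods: the assembly
-/

set_option autoImplicit false

open MeasureTheory

namespace HPR

open LRP Pool.Agent.Helper23 Pool.Agent.Helper23.PeriodDefs

theorem value (n : ℕ) (v : ℂ) (hv : IsHPRPeriodOf n v) : ∃ a : QB, v = a * (Real.pi : ℂ) ^ n :=
  value_of (fun n S hS P D hD hint => main QB I_mem_QB n S hS P D hD hint) n v hv

theorem exact (n : ℕ) (a : QB) : IsHPRPeriodOf n (a * (Real.pi : ℂ) ^ n) :=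
  of_lrp (imp QB) (LRP.exact n a)

/-- everything but the ridge clause, which is a hypothesis here -/
theorem asm_ridge
    (hridge : ∀ n : ℕ, ∃ S : Set (MvPolynomial (Fin (n + 1)) QB), Red (n + 1) S ∧
      RidgeFam n ⊆ (Prods S : Set (MvPolynomial (Fin (n + 1)) QB))) :
    (∀ (n : ℕ) (v : ℂ), IsHPRPeriodOf n v ↔ ∃ a : QB, v = a * (Real.pi : ℂ) ^ n) ∧
    (∀ n : ℕ, ∃ S : Set (MvPolynomial (Fin (n + 1)) QB), Red (n + 1) S ∧
      RidgeFam n ⊆ (Prods S : Set (MvPolynomial (Fin (n + 1)) QB))) ∧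
    Algebra.adjoin QB ({v : ℂ | ∃ n : ℕ, IsHPRPeriodOf n v} ∪
      {v : ℂ | ∃ w : ℝ, v = (w : ℂ) ∧ (IsRidgeIntegral w ∨ IsQuadricIntegral w ∨
        IsEllipsoidIntegral w)}) = Algebra.adjoin QB {(Real.pi : ℂ)} ∧
    (Real.pi : ℂ)⁻¹ ∉ Algebra.adjoin QB {(Real.pi : ℂ)} := by
  refine ⟨fun n v => ⟨value n v, ?_⟩, hridge, ring_eq value, inv_pi_not_mem⟩
  rintro ⟨a, rfl⟩
  exact exact n a

/-- the form without the ridge clause: the plane family, and the linear curve families -/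
theorem asm_plane (hplane : Red 2 PlaneFam) :
    (∀ (n : ℕ) (v : ℂ), IsHPRPeriodOf n v ↔ ∃ a : QB, v = a * (Real.pi : ℂ) ^ n) ∧
    Red 2 PlaneFam ∧
    (∀ n : ℕ, ∃ S : Set (MvPolynomial (Fin (n + 1)) QB), Red (n + 1) S ∧
      CurveFam n ⊆ (Prods S : Set (MvPolynomial (Fin (n + 1)) QB))) ∧
    Algebra.adjoin QB ({v : ℂ | ∃ n : ℕ, IsHPRPeriodOf n v} ∪
      {v : ℂ | ∃ w : ℝ, v = (w : ℂ) ∧ (IsRidgeIntegral w ∨ IsQuadricIntegral w ∨
        IsEllipsoidIntegral w)}) = Algebra.adjoin QB {(Real.pi : ℂ)} ∧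
    (Real.pi : ℂ)⁻¹ ∉ Algebra.adjoin QB {(Real.pi : ℂ)} := by
  refine ⟨fun n v => ⟨value n v, ?_⟩, hplane, curve_of (imp QB), ring_eq value, inv_pi_not_mem⟩
  rintro ⟨a, rfl⟩
  exact exact n a

/-- a value that is not zero, in at least one variable, is transcendental -/
theorem transcendental (n : ℕ) (v : ℂ) (hv : IsHPRPeriodOf n v) (h0 : v ≠ 0) (hn : n ≠ 0) :
    Transcendental ℚ v := by
  obtain ⟨a, ha⟩ := value n v hv
  exact transcendental_of_eq ha h0 hn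

end HPR
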