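import Pool.Agent.HPR.Defs
import Pool.Agent.LRP.Asm

/-!
# Half-plane reducible periods: the assembly, with the modules as hypotheses
-/

set_option autoImplicit false

open MeasureTheory

namespace HPR

open LRP Pool.Agent.Helper23 Pool.Agent.Helper23.PeriodDefs

theorem of_lrp
    (himp : ∀ (n : ℕ) (S : Set (MvPolynomial (Fin n) QB)), LRP.Red n S → Red n S)
    {n : ℕ} {v : ℂ} (h : IsLRPeriodOf n v) : IsHPRPeriodOf n v := by
  obtain ⟨S, hS, P, D, hD, hint, hv⟩ := h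
  exact ⟨S, himp n S hS, P, D, hD, hint, hv⟩

theorem curve_of
    (himp : ∀ (n : ℕ) (S : Set (MvPolynomial (Fin n) QB)), LRP.Red n S → Red n S) (n : ℕ) :
    ∃ S : Set (MvPolynomial (Fin (n + 1)) QB), Red (n + 1) S ∧
      CurveFam n ⊆ (Prods S : Set (MvPolynomial (Fin (n + 1)) QB)) := by
  obtain ⟨S, hS, h⟩ := LRP.curve n
  exact ⟨S, himp (n + 1) S hS, h⟩

theorem value_of
    (hmain : ∀ (n : ℕ) (S : Set (MvPolynomial (Fin n) QB)), Red n S →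
      ∀ P D : MvPolynomial (Fin n) QB, D ∈ Prods S →
      Integrable (fun x : Fin n → ℝ => ev P x / ev D x) →
      ∃ a ∈ QB, ∫ x, ev P x / ev D x = a * (Real.pi : ℂ) ^ n)
    (n : ℕ) (v : ℂ) (hv : IsHPRPeriodOf n v) : ∃ a : QB, v = a * (Real.pi : ℂ) ^ n := by
  obtain ⟨S, hS, P, D, hD, hint, rfl⟩ := hv
  obtain ⟨a, ha, h⟩ := hmain n S hS P D hD hint
  exact ⟨⟨a, ha⟩, h⟩

theorem ring_eq
    (hval : ∀ (n : ℕ) (v : ℂ), IsHPRPeriodOf n v → ∃ a : QB, v = a * (Real.pi : ℂ) ^ n) :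
    Algebra.adjoin QB ({v : ℂ | ∃ n : ℕ, IsHPRPeriodOf n v} ∪
      {v : ℂ | ∃ w : ℝ, v = (w : ℂ) ∧ (IsRidgeIntegral w ∨ IsQuadricIntegral w ∨
        IsEllipsoidIntegral w)}) = Algebra.adjoin QB {(Real.pi : ℂ)} := by
  have hpi : (Real.pi : ℂ) ∈ Algebra.adjoin QB ({(Real.pi : ℂ)} : Set ℂ) :=
    Algebra.subset_adjoin rfl
  apply le_antisymm
  · apply Algebra.adjoin_le
    rintro v (⟨n, hv⟩ | ⟨w, rfl, hw⟩)
    · obtain ⟨a, rfl⟩ := hval n v hv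
      exact Subalgebra.mul_mem _ (Subalgebra.algebraMap_mem _ a) (Subalgebra.pow_mem _ hpi n)
    · obtain ⟨a, ha, e, rfl⟩ := PeriodProof.value hw
      have ha' : (a : ℂ) ∈ QB := PeriodProof.ofReal_mem_CA.mpr ha
      rw [Complex.ofReal_mul, Complex.ofReal_pow]
      exact Subalgebra.mul_mem _ (Subalgebra.algebraMap_mem _ (⟨(a : ℂ), ha'⟩ : QB))
        (Subalgebra.pow_mem _ hpi e)
  · apply Algebra.adjoin_mono
    rintro _ rfl
    exact Or.inr ⟨Real.pi, rfl, Or.inl PeriodProof.pi_ridge⟩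

theorem asm_of
    (hmain : ∀ (n : ℕ) (S : Set (MvPolynomial (Fin n) QB)), Red n S →
      ∀ P D : MvPolynomial (Fin n) QB, D ∈ Prods S →
      Integrable (fun x : Fin n → ℝ => ev P x / ev D x) →
      ∃ a ∈ QB, ∫ x, ev P x / ev D x = a * (Real.pi : ℂ) ^ n)
    (himp : ∀ (n : ℕ) (S : Set (MvPolynomial (Fin n) QB)), LRP.Red n S → Red n S)
    (hridge : ∀ n : ℕ, ∃ S : Set (MvPolynomial (Fin (n + 1)) QB), Red (n + 1) S ∧
      RidgeFam n ⊆ (Prods S : Set (MvPolynomial (Fin (n + 1)) QB)))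
    (hplane : Red 2 PlaneFam) :
    (∀ (n : ℕ) (v : ℂ), (IsHPRPeriodOf n v ↔ ∃ a : QB, v = a * (Real.pi : ℂ) ^ n) ∧
      (IsHPRPeriodOf n v → v ≠ 0 → n ≠ 0 → Transcendental ℚ v)) ∧
    (∀ n : ℕ, ∃ S : Set (MvPolynomial (Fin (n + 1)) QB), Red (n + 1) S ∧
      RidgeFam n ⊆ (Prods S : Set (MvPolynomial (Fin (n + 1)) QB))) ∧
    Red 2 PlaneFam ∧
    (∀ (n : ℕ) (S : Set (MvPolynomial (Fin n) QB)), LRP.Red n S → Red n S) ∧
    Algebra.adjoin QB ({v : ℂ | ∃ n : ℕ, IsHPRPeriodOf n v} ∪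
      {v : ℂ | ∃ w : ℝ, v = (w : ℂ) ∧ (IsRidgeIntegral w ∨ IsQuadricIntegral w ∨
        IsEllipsoidIntegral w)}) = Algebra.adjoin QB {(Real.pi : ℂ)} ∧
    (Real.pi : ℂ)⁻¹ ∉ Algebra.adjoin QB {(Real.pi : ℂ)} ∧
    periodRing = Algebra.adjoin RealAlg {Real.pi} ∧ (Real.pi)⁻¹ ∉ periodRing := by
  refine ⟨fun n v => ⟨⟨value_of hmain n v, ?_⟩, fun hv h0 hn => ?_⟩, hridge, hplane, himp,
    ring_eq (value_of hmain), inv_pi_not_mem, PeriodProof.main⟩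
  · rintro ⟨a, rfl⟩
    exact of_lrp himp (exact n a)
  · obtain ⟨a, ha⟩ := value_of hmain n v hv
    exact transcendental_of_eq ha h0 hn

end HPR
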