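import Pool.Agent.LRP.Defs

/-!
# Half-plane reducible families and their integrals over the whole space (MP_725b61_nt)
-/

set_option autoImplicit false

namespace HPR

open MeasureTheory LRP

/-- The value at `(z, x)`, the first variable complex, the others real. -/
noncomputable def evz {A : Subfield ℂ} {n : ℕ} (F : MvPolynomial (Fin (n + 1)) A) (z : ℂ)
    (x : Fin n → ℝ) : ℂ :=
  MvPolynomial.aeval (Fin.cons z (fun k => (x k : ℂ)) : Fin (n + 1) → ℂ) F

/-- At every real point `x` all roots of `F(z, x)` in `z` lie in the upper half plane. -/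
def Up {A : Subfield ℂ} {n : ℕ} (F : MvPolynomial (Fin (n + 1)) A) : Prop :=
  ∀ (x : Fin n → ℝ) (z : ℂ), evz F z x = 0 → 0 < z.im

/-- At every real point `x` all roots of `F(z, x)` in `z` lie in the lower half plane. -/
def Low {A : Subfield ℂ} {n : ℕ} (F : MvPolynomial (Fin (n + 1)) A) : Prop :=
  ∀ (x : Fin n → ℝ) (z : ℂ), evz F z x = 0 → z.im < 0

/-- The leading coefficient of `F` as a polynomial in the first variable. -/
noncomputable def lc {A : Subfield ℂ} {n : ℕ} (F : MvPolynomial (Fin (n + 1)) A) :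
    MvPolynomial (Fin n) A :=
  (MvPolynomial.finSuccEquiv A n F).leadingCoeff

/-- Half-plane reducible families of polynomials. -/
def Red {A : Subfield ℂ} : (n : ℕ) → Set (MvPolynomial (Fin n) A) → Prop
  | 0, S => ∀ F ∈ S, F ≠ 0
  | n + 1, S => ∃ T : Set (MvPolynomial (Fin n) A), Red n T ∧
      (∀ F ∈ S, lc F ∈ Prods T ∧ (Up F ∨ Low F)) ∧
      ∀ F ∈ S, ∀ F' ∈ S, Up F → Low F' →
        ∃ U V : MvPolynomial (Fin (n + 1)) A, ∃ G ∈ Prods T,
          U * F + V * F' = MvPolynomial.rename Fin.succ G

/-- Two variables: the leading coefficient in `x_0` has no real zero, and for every real value of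
the other variable all roots are on the same side of the real axis. -/
def PlaneFam : Set (MvPolynomial (Fin 2) QB) :=
  {F | (∀ x : Fin 1 → ℝ, ev (lc F) x ≠ 0) ∧ (Up F ∨ Low F)}

/-- The polynomials `f(c . x, t)`, `t` the last of `n + 1` variables, `c` a real algebraic vector,
`f(y, t)` in `PlaneFam`. -/
def RidgeFam (n : ℕ) : Set (MvPolynomial (Fin (n + 1)) QB) :=
  {F | ∃ (c : Fin n → QB) (f : MvPolynomial (Fin 2) QB), (∀ k, (c k : ℂ).im = 0) ∧ f ∈ PlaneFam ∧
    F = MvPolynomial.aeval ![∑ k : Fin n, MvPolynomial.C (c k) * MvPolynomial.X k.castSucc,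
      MvPolynomial.X (Fin.last n)] f}

/-- `v` is the absolutely convergent integral over `R^n` of a quotient `P/D`, `D` a product of
members of a half-plane reducible family. -/
def IsHPRPeriodOf (n : ℕ) (v : ℂ) : Prop :=
  ∃ S : Set (MvPolynomial (Fin n) QB), Red n S ∧ ∃ P : MvPolynomial (Fin n) QB, ∃ D ∈ Prods S,
    Integrable (fun x : Fin n → ℝ => ev P x / ev D x) ∧ v = ∫ x, ev P x / ev D x

end HPR
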