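import Pool.Agent.HPR.Imp
import Pool.Agent.LRP.Two

/-!
# Two variables: one-sided polynomials are half-plane reducible
-/

set_option autoImplicit false

open MvPolynomial

namespace HPR

open LRP

section general
variable {A : Subfield ℂ} {n : ℕ}

/-- evaluation at a real point, as a ring homomorphism -/
noncomputable def plHom (x : Fin n → ℝ) : MvPolynomial (Fin n) A →+* ℂ :=
  (MvPolynomial.aeval (fun k => (x k : ℂ)) : MvPolynomial (Fin n) A →ₐ[A] ℂ).toRingHom

theorem plHom_apply (x : Fin n → ℝ) (P : MvPolynomial (Fin n) A) : plHom x P = ev P x := rfl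

/-- the value at `(z, x)` is the value at `z` of the specialised polynomial in one variable -/
theorem pl_evz (F : MvPolynomial (Fin (n + 1)) A) (z : ℂ) (x : Fin n → ℝ) :
    evz F z x = ((finSuccEquiv A n F).map (plHom x)).eval z := by
  unfold evz
  induction F using MvPolynomial.induction_on with
  | C a =>
    rw [MvPolynomial.aeval_C, MvPolynomial.finSuccEquiv_apply, MvPolynomial.coe_eval₂Hom,
      MvPolynomial.eval₂_C, RingHom.comp_apply, Polynomial.map_C, Polynomial.eval_C, plHom_apply]
    unfold ev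
    rw [MvPolynomial.aeval_C]
  | add p q hp hq =>
    rw [map_add, map_add, Polynomial.map_add, Polynomial.eval_add, hp, hq]
  | mul_X p i hp =>
    rw [map_mul, map_mul, Polynomial.map_mul, Polynomial.eval_mul, hp, MvPolynomial.aeval_X]
    congr 1
    refine Fin.cases ?_ (fun k => ?_) i
    · rw [Fin.cons_zero, MvPolynomial.finSuccEquiv_X_zero, Polynomial.map_X, Polynomial.eval_X]
    · rw [Fin.cons_succ, MvPolynomial.finSuccEquiv_X_succ, Polynomial.map_C, Polynomial.eval_C,
        plHom_apply]
      unfold ev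
      rw [MvPolynomial.aeval_X]

/-- an upper and a lower polynomial, leading coefficients without real zeros: the ideal contains a
polynomial in the last variables without real zero -/
theorem pl_pair (F F' : MvPolynomial (Fin (n + 1)) A) (h : ∀ x : Fin n → ℝ, ev (lc F) x ≠ 0)
    (h' : ∀ x : Fin n → ℝ, ev (lc F') x ≠ 0) (hU : Up F) (hL : Low F') :
    ∃ U V : MvPolynomial (Fin (n + 1)) A, ∃ G : MvPolynomial (Fin n) A,
      (∀ x : Fin n → ℝ, ev G x ≠ 0) ∧ U * F + V * F' = rename Fin.succ G := by
  obtain ⟨f, hf⟩ : ∃ f, f = finSuccEquiv A n F := ⟨_, rfl⟩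
  obtain ⟨g, hg⟩ : ∃ g, g = finSuccEquiv A n F' := ⟨_, rfl⟩
  by_cases h0 : f.natDegree = 0
  · refine ⟨1, 0, lc F, h, ?_⟩
    rw [one_mul, zero_mul, add_zero]
    apply (finSuccEquiv A n).injective
    rw [imp_fse_rename]
    unfold lc
    rw [← hf]
    have h1 := Polynomial.eq_C_of_natDegree_eq_zero h0
    rw [Polynomial.leadingCoeff, h0]
    exact h1
  · obtain ⟨p, q, -, -, hpq⟩ := Polynomial.exists_mul_add_mul_eq_C_resultant f g le_rfl le_rfl
      (Or.inl h0)
    refine ⟨(finSuccEquiv A n).symm p, (finSuccEquiv A n).symm q, f.resultant g, ?_, ?_⟩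
    · intro x
      rw [← plHom_apply, ← Polynomial.resultant_map_map]
      have d1 : (f.map (plHom x)).natDegree = f.natDegree :=
        Polynomial.natDegree_map_of_leadingCoeff_ne_zero _ (by
          rw [plHom_apply, hf]
          exact h x)
      have d2 : (g.map (plHom x)).natDegree = g.natDegree :=
        Polynomial.natDegree_map_of_leadingCoeff_ne_zero _ (by
          rw [plHom_apply, hg]
          exact h' x)
      rw [← d1, ← d2]
      intro h3
      obtain ⟨-, h4⟩ := Polynomial.resultant_eq_zero_iff.1 h3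
      rw [Polynomial.isCoprime_iff_aeval_ne_zero_of_isAlgClosed (k := ℂ) ℂ _ _] at h4
      push Not at h4
      obtain ⟨z, h5, h6⟩ := h4
      rw [Polynomial.coe_aeval_eq_eval] at h5 h6
      have h7 := hU x z (by rw [pl_evz, ← hf]; exact h5)
      have h8 := hL x z (by rw [pl_evz, ← hg]; exact h6)
      exact absurd h7 (not_lt.2 h8.le)
    · apply (finSuccEquiv A n).injective
      rw [imp_fse_rename, map_add, map_mul, map_mul, AlgEquiv.apply_symm_apply,
        AlgEquiv.apply_symm_apply, ← hf, ← hg, ← hpq]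
      ring

theorem pl_rename (G : MvPolynomial (Fin n) A) :
    finSuccEquiv A n (rename Fin.succ G) = Polynomial.C G := imp_fse_rename G

/-- the same homomorphism under another name -/
noncomputable abbrev pl_ev (x : Fin n → ℝ) : MvPolynomial (Fin n) A →+* ℂ := plHom x

theorem pl_ev_apply (x : Fin n → ℝ) (G : MvPolynomial (Fin n) A) : pl_ev x G = ev G x := rfl

/-- the resultant of an upper and a lower polynomial has no real zero -/
theorem pl_res {F F' : MvPolynomial (Fin (n + 1)) A} (h1 : ∀ x : Fin n → ℝ, ev (lc F) x ≠ 0)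
    (h2 : ∀ x : Fin n → ℝ, ev (lc F') x ≠ 0) (hU : Up F) (hL : Low F') (x : Fin n → ℝ) :
    ev (Polynomial.resultant (finSuccEquiv A n F) (finSuccEquiv A n F')) x ≠ 0 := by
  intro h0
  rw [← plHom_apply, ← Polynomial.resultant_map_map] at h0
  have d1 : ((finSuccEquiv A n F).map (plHom x)).natDegree = (finSuccEquiv A n F).natDegree :=
    Polynomial.natDegree_map_of_leadingCoeff_ne_zero _ (h1 x)
  have d2 : ((finSuccEquiv A n F').map (plHom x)).natDegree = (finSuccEquiv A n F').natDegree :=
    Polynomial.natDegree_map_of_leadingCoeff_ne_zero _ (h2 x)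
  have h3 : Polynomial.resultant ((finSuccEquiv A n F).map (plHom x))
      ((finSuccEquiv A n F').map (plHom x)) = 0 := by
    rw [d1, d2]
    exact h0
  have h4 := (Polynomial.resultant_eq_zero_iff.1 h3).2
  rw [Polynomial.isCoprime_iff_aeval_ne_zero_of_isAlgClosed ℂ ℂ] at h4
  push Not at h4
  obtain ⟨z, hz, hz'⟩ := h4
  rw [Polynomial.coe_aeval_eq_eval] at hz hz'
  have h5 := hU x z (by rw [pl_evz]; exact hz)
  have h6 := hL x z (by rw [pl_evz]; exact hz')
  linarith

theorem pl_bezout (F F' : MvPolynomial (Fin (n + 1)) A) (T : Set (MvPolynomial (Fin n) A))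
    (h1 : lc F ∈ Prods T) (hR : Polynomial.resultant (finSuccEquiv A n F)
      (finSuccEquiv A n F') ∈ Prods T) :
    ∃ U V : MvPolynomial (Fin (n + 1)) A, ∃ G ∈ Prods T,
      U * F + V * F' = rename Fin.succ G := by
  by_cases hm : (finSuccEquiv A n F).natDegree = 0
  · refine ⟨1, 0, lc F, h1, ?_⟩
    apply (finSuccEquiv A n).injective
    rw [pl_rename, one_mul, zero_mul, add_zero]
    unfold lc
    rw [Polynomial.leadingCoeff, hm]
    exact Polynomial.eq_C_of_natDegree_eq_zero hm
  · obtain ⟨p, q, -, -, e⟩ := Polynomial.exists_mul_add_mul_eq_C_resultant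
      (finSuccEquiv A n F) (finSuccEquiv A n F') le_rfl le_rfl (Or.inl hm)
    refine ⟨(finSuccEquiv A n).symm p, (finSuccEquiv A n).symm q, _, hR, ?_⟩
    apply (finSuccEquiv A n).injective
    rw [pl_rename, map_add, map_mul, map_mul, AlgEquiv.apply_symm_apply,
      AlgEquiv.apply_symm_apply, ← e]
    ring

end general

/-- PLANE -/
theorem plane : Red 2 PlaneFam := by
  refine ⟨LastLin 0, imp QB 1 (LastLin 0) tw_red1, fun F hF => ⟨tw_fac _ hF.1, hF.2⟩, ?_⟩
  intro F hF F' hF' hU hL
  obtain ⟨U, V, G, hG, h⟩ := pl_pair F F' hF.1 hF'.1 hU hL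
  exact ⟨U, V, G, tw_fac G hG, h⟩

end HPR
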