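import Mathlib
import Pool.Agent.HPR.Defs

/-!
# The resultant of a factor above and a factor below the real axis (MP_725b61_nt)
-/

set_option autoImplicit false

open Polynomial

namespace HPR

namespace Res

open LRP

/-- `x_0 ↦ x_1` -/
noncomputable def rho : MvPolynomial (Fin 1) QB →+* MvPolynomial (Fin 2) QB :=
  (MvPolynomial.rename (fun _ : Fin 1 => (1 : Fin 2))).toRingHom

/-- value of the last variable -/
noncomputable def phi (t : ℝ) : MvPolynomial (Fin 1) QB →+* ℂ :=
  (MvPolynomial.aeval (fun _ : Fin 1 => (t : ℂ)) : MvPolynomial (Fin 1) QB →ₐ[QB] ℂ).toRingHom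

/-- value of the last variable, the first one kept -/
noncomputable def psi (t : ℝ) : MvPolynomial (Fin 2) QB →+* ℂ[X] :=
  (MvPolynomial.eval₂Hom ((C : ℂ →+* ℂ[X]).comp (algebraMap QB ℂ)) ![X, C (t : ℂ)])

/-- as a polynomial in the first variable -/
noncomputable def hat (f : MvPolynomial (Fin 2) QB) : (MvPolynomial (Fin 1) QB)[X] :=
  MvPolynomial.finSuccEquiv QB 1 f

theorem finX1 : MvPolynomial.finSuccEquiv QB 1 (MvPolynomial.X 1) =
    C (MvPolynomial.X 0) :=
  MvPolynomial.finSuccEquiv_X_succ (R := QB) (n := 1) (j := 0)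

theorem finC (q : QB) : MvPolynomial.finSuccEquiv QB 1 (MvPolynomial.C q) =
    C (MvPolynomial.C q) := by
  simp [MvPolynomial.finSuccEquiv_apply]

theorem psi_eq (t : ℝ) (f : MvPolynomial (Fin 2) QB) : psi t f = (hat f).map (phi t) := by
  have h : psi t = (Polynomial.mapRingHom (phi t)).comp
      (MvPolynomial.finSuccEquiv QB 1 : MvPolynomial (Fin 2) QB →ₐ[QB] _).toRingHom := by
    refine MvPolynomial.ringHom_ext ?_ ?_
    · intro q
      simp [psi, phi, MvPolynomial.finSuccEquiv_apply]
    · intro i
      fin_cases i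
      · simp [psi, phi, MvPolynomial.finSuccEquiv_apply]
      · show psi t (MvPolynomial.X 1) =
          (MvPolynomial.finSuccEquiv QB 1 (MvPolynomial.X 1)).map (phi t)
        rw [finX1, Polynomial.map_C]
        simp [psi, phi]
  rw [h]
  rfl

theorem psi_rho (t : ℝ) : (psi t).comp rho = (C : ℂ →+* ℂ[X]).comp (phi t) := by
  refine MvPolynomial.ringHom_ext ?_ ?_
  · intro q
    simp [psi, phi, rho]
  · intro i
    simp [psi, phi, rho]

/-- the structure of a substitution -/
theorem sub_eq (P : (MvPolynomial (Fin 2) QB)[X]) (f : MvPolynomial (Fin 2) QB) :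
    MvPolynomial.aeval ![P, C (MvPolynomial.X 1)] f = ((hat f).map rho).comp P := by
  have h : (MvPolynomial.aeval ![P, C (MvPolynomial.X 1)] :
      MvPolynomial (Fin 2) QB →ₐ[QB] (MvPolynomial (Fin 2) QB)[X]).toRingHom =
      (Polynomial.eval₂RingHom ((C : MvPolynomial (Fin 2) QB →+* _).comp rho) P).comp
      (MvPolynomial.finSuccEquiv QB 1 : MvPolynomial (Fin 2) QB →ₐ[QB] _).toRingHom := by
    refine MvPolynomial.ringHom_ext ?_ ?_
    · intro q
      show MvPolynomial.aeval ![P, C (MvPolynomial.X 1)] (MvPolynomial.C q) =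
        Polynomial.eval₂ (C.comp rho) P (MvPolynomial.finSuccEquiv QB 1 (MvPolynomial.C q))
      rw [finC, Polynomial.eval₂_C, MvPolynomial.aeval_C]
      show _ = C (rho (MvPolynomial.C q))
      have : rho (MvPolynomial.C q) = MvPolynomial.C q := by simp [rho]
      rw [this]
      rfl
    · intro i
      fin_cases i
      · show MvPolynomial.aeval ![P, C (MvPolynomial.X 1)] (MvPolynomial.X 0) =
          Polynomial.eval₂ (C.comp rho) P (MvPolynomial.finSuccEquiv QB 1 (MvPolynomial.X 0))
        rw [MvPolynomial.finSuccEquiv_X_zero, Polynomial.eval₂_X, MvPolynomial.aeval_X]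
        rfl
      · show MvPolynomial.aeval ![P, C (MvPolynomial.X 1)] (MvPolynomial.X 1) =
          Polynomial.eval₂ (C.comp rho) P (MvPolynomial.finSuccEquiv QB 1 (MvPolynomial.X 1))
        rw [finX1, Polynomial.eval₂_C, MvPolynomial.aeval_X]
        show C (MvPolynomial.X 1) = C (rho (MvPolynomial.X 0))
        have : rho (MvPolynomial.X 0) = MvPolynomial.X 1 := by simp [rho]
        rw [this]
  have h2 := congrArg (fun F => F f) h
  show (MvPolynomial.aeval ![P, C (MvPolynomial.X 1)]).toRingHom f = _
  rw [Polynomial.comp, Polynomial.eval₂_map]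
  exact h2

/-- value at a point -/
theorem evz_eq (F : MvPolynomial (Fin 2) QB) (z : ℂ) (t : ℝ) :
    evz F z (fun _ => t) = ((hat F).map (phi t)).eval z := by
  have h : (MvPolynomial.aeval (Fin.cons z (fun _ : Fin 1 => (t : ℂ)) : Fin 2 → ℂ) :
      MvPolynomial (Fin 2) QB →ₐ[QB] ℂ).toRingHom =
      (Polynomial.evalRingHom z).comp (psi t) := by
    refine MvPolynomial.ringHom_ext ?_ ?_
    · intro q
      simp [psi]
    · intro i
      fin_cases i
      · simp [psi]
      · show MvPolynomial.aeval (Fin.cons z (fun _ : Fin 1 => (t : ℂ)) : Fin 2 → ℂ)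
          (MvPolynomial.X 1) = (psi t (MvPolynomial.X 1)).eval z
        rw [MvPolynomial.aeval_X]
        simp [psi]
  rw [← psi_eq]
  exact congrArg (fun G => G F) h

theorem val_eq (F : MvPolynomial (Fin 2) QB) (z : ℂ) (t : ℝ) :
    MvPolynomial.aeval ![z, (t : ℂ)] F = ((hat F).map (phi t)).eval z := by
  rw [← evz_eq]
  unfold evz
  congr 2
  funext i
  fin_cases i
  · rfl
  · rfl

/-- a polynomial in one variable which vanishes on the real line -/
theorem zero_of_vanish (c : MvPolynomial (Fin 1) QB) (h : ∀ t : ℝ, phi t c = 0) : c = 0 := by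
  have hinj : Function.Injective (MvPolynomial.map (σ := Fin 1) (algebraMap QB ℂ)) :=
    MvPolynomial.map_injective _ (algebraMap QB ℂ).injective
  apply hinj
  rw [map_zero]
  refine MvPolynomial.funext_set (fun _ => Set.range (fun t : ℝ => (t : ℂ)))
    (fun _ => Set.infinite_range_of_injective Complex.ofReal_injective) fun x hx => ?_
  obtain ⟨t, ht⟩ := hx 0 (Set.mem_univ _)
  have hx' : x = fun _ => (t : ℂ) := by
    funext i
    rw [Subsingleton.elim i 0]
    exact ht.symm
  rw [map_zero, hx', MvPolynomial.eval_map]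
  exact h t

/-- constant degree after specialisation -/
theorem lc_ne (H : (MvPolynomial (Fin 1) QB)[X]) (N : ℕ) (h : ∀ t : ℝ, H.map (phi t) ≠ 0 ∧
    (H.map (phi t)).natDegree = N) (t : ℝ) : phi t H.leadingCoeff ≠ 0 := by
  have hH : H ≠ 0 := by
    rintro rfl
    exact (h 0).1 (Polynomial.map_zero _)
  have h1 : N ≤ H.natDegree := by
    rw [← (h 0).2]
    exact Polynomial.natDegree_map_le
  rcases h1.lt_or_eq with h2 | h2
  · exfalso
    apply hH
    rw [← Polynomial.leadingCoeff_eq_zero]
    refine zero_of_vanish _ fun s => ?_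
    rw [Polynomial.leadingCoeff, ← Polynomial.coeff_map]
    exact Polynomial.coeff_eq_zero_of_natDegree_lt (by rw [(h s).2]; exact h2)
  · rw [Polynomial.leadingCoeff, ← h2, ← Polynomial.coeff_map]
    intro h3
    apply (h t).1
    rw [← Polynomial.leadingCoeff_eq_zero, Polynomial.leadingCoeff, (h t).2]
    exact h3

/-- membership in `PlaneFam` -/
theorem mem_plane (F : MvPolynomial (Fin 2) QB) (N : ℕ)
    (h : ∀ t : ℝ, (hat F).map (phi t) ≠ 0 ∧ ((hat F).map (phi t)).natDegree = N)
    (hs : (∀ (t : ℝ) (z : ℂ), ((hat F).map (phi t)).eval z = 0 → 0 < z.im) ∨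
      ∀ (t : ℝ) (z : ℂ), ((hat F).map (phi t)).eval z = 0 → z.im < 0) : F ∈ PlaneFam := by
  have hx : ∀ x : Fin 1 → ℝ, x = fun _ => x 0 := fun x => by
    funext i
    rw [Subsingleton.elim i 0]
  refine ⟨fun x => ?_, ?_⟩
  · rw [hx x]
    exact lc_ne (hat F) N h (x 0)
  · rcases hs with hs | hs
    · left
      intro x z hz
      rw [hx x, evz_eq] at hz
      exact hs _ _ hz
    · right
      intro x z hz
      rw [hx x, evz_eq] at hz
      exact hs _ _ hz

/-- properties of a member of `PlaneFam` -/
theorem of_plane {F : MvPolynomial (Fin 2) QB} (hF : F ∈ PlaneFam) (t : ℝ) :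
    (hat F).map (phi t) ≠ 0 ∧ ((hat F).map (phi t)).natDegree = (hat F).natDegree := by
  have h1 : phi t (hat F).leadingCoeff ≠ 0 := hF.1 (fun _ => t)
  have h2 : ((hat F).map (phi t)).natDegree = (hat F).natDegree :=
    Polynomial.natDegree_map_of_leadingCoeff_ne_zero _ h1
  refine ⟨fun h3 => h1 ?_, h2⟩
  rw [Polynomial.leadingCoeff, ← Polynomial.coeff_map, h3, Polynomial.coeff_zero]

/-- the specialised resultant -/
theorem psi_res (f g : MvPolynomial (Fin 2) QB) (hf : f ∈ PlaneFam) (a b : QB) (ha0 : a ≠ 0) (t : ℝ) :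
    psi t (resultant (((hat f).map rho).comp (C (MvPolynomial.C a) * X))
      (((hat g).map rho).comp (C (MvPolynomial.C b) * X + C (MvPolynomial.X 0)))
      (hat f).natDegree (hat g).natDegree) =
    C (((hat f).map (phi t)).comp (C (a : ℂ) * X)).leadingCoeff ^ (hat g).natDegree *
      ((((hat f).map (phi t)).comp (C (a : ℂ) * X)).roots.map
        (fun α => ((hat g).map (phi t)).comp (X + C ((b : ℂ) * α)))).prod := by
  have ha : (a : ℂ) ≠ 0 := fun h => ha0 (Subtype.ext h)
  set p : ℂ[X] := ((hat f).map (phi t)).comp (C (a : ℂ) * X) with hp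
  have hC : ∀ q : QB, psi t (MvPolynomial.C q) = C (q : ℂ) := fun q => by
    simp only [psi, MvPolynomial.coe_eval₂Hom, MvPolynomial.eval₂_C]
    rfl
  have hmm : ∀ F : (MvPolynomial (Fin 1) QB)[X],
      (F.map rho).map (psi t) = (F.map (phi t)).map (C : ℂ →+* ℂ[X]) := by
    intro F
    rw [Polynomial.map_map, Polynomial.map_map, psi_rho]
  have e1 : (((hat f).map rho).comp (C (MvPolynomial.C a) * X)).map (psi t) =
      p.map (C : ℂ →+* ℂ[X]) := by
    rw [Polynomial.map_comp, hmm, hp, Polynomial.map_comp]
    congr 1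
    rw [Polynomial.map_mul, Polynomial.map_mul, Polynomial.map_C, Polynomial.map_C,
      Polynomial.map_X, Polynomial.map_X, hC]
  have e2 : (((hat g).map rho).comp (C (MvPolynomial.C b) * X + C (MvPolynomial.X 0))).map
      (psi t) = (((hat g).map (phi t)).map (C : ℂ →+* ℂ[X])).comp (C (C (b : ℂ)) * X + C X) := by
    rw [Polynomial.map_comp, hmm]
    congr 1
    rw [Polynomial.map_add, Polynomial.map_mul, Polynomial.map_C, Polynomial.map_C,
      Polynomial.map_X, hC]
    congr 2
    simp [psi]
  have hd : p.natDegree = (hat f).natDegree := by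
    rw [hp, Polynomial.natDegree_comp, Polynomial.natDegree_C_mul_X _ ha, mul_one]
    exact (of_plane hf t).2
  have hd' : (p.map (C : ℂ →+* ℂ[X])).natDegree = (hat f).natDegree := by
    rw [Polynomial.natDegree_map_eq_of_injective Polynomial.C_injective, hd]
  have hs : p.Splits := IsAlgClosed.splits p
  rw [← resultant_map_map, e1, e2, ← hd']
  rw [resultant_eq_prod_eval _ _ _ _ (hs.map _)]
  · rw [Polynomial.leadingCoeff_map_of_injective Polynomial.C_injective,
      ← Polynomial.roots_map_of_injective_of_card_eq_natDegree Polynomial.C_injective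
        hs.natDegree_eq_card_roots.symm, Multiset.map_map]
    congr 2
    refine Multiset.map_congr rfl fun α _ => ?_
    show Polynomial.eval (C α) _ = _
    rw [Polynomial.eval_comp, Polynomial.eval_map]
    show Polynomial.comp _ _ = _
    congr 1
    simp only [Polynomial.eval_add, Polynomial.eval_mul, Polynomial.eval_C, Polynomial.eval_X]
    rw [C_mul, add_comm]
  · refine Polynomial.natDegree_comp_le.trans ?_
    refine (Nat.mul_le_mul Polynomial.natDegree_map_le Polynomial.natDegree_linear_le).trans ?_
    rw [mul_one]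
    exact Polynomial.natDegree_map_le

end Res

open LRP Res in
/-- RES: `h` is the resultant in `s` of `f (a s, t)` and `g (b s + y, t)`, `y = X 0`, `t = X 1`. -/
theorem res (f g : MvPolynomial (Fin 2) QB) (hf : f ∈ PlaneFam) (hg : g ∈ PlaneFam) (a b : QB)
    (ha : (a : ℂ).im = 0) (hb : (b : ℂ).im = 0) (ha0 : a ≠ 0) (hb0 : b ≠ 0)
    (h1 : ∀ (t : ℝ) (z : ℂ), MvPolynomial.aeval ![(a : ℂ) * z, (t : ℂ)] f = 0 → 0 < z.im)
    (h2 : ∀ (t : ℝ) (z : ℂ), MvPolynomial.aeval ![(b : ℂ) * z, (t : ℂ)] g = 0 → z.im < 0) :
    ∃ h ∈ PlaneFam, ∃ U V : Polynomial (MvPolynomial (Fin 2) QB),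
      U * MvPolynomial.aeval ![Polynomial.C (MvPolynomial.C a) * Polynomial.X,
          Polynomial.C (MvPolynomial.X 1)] f +
        V * MvPolynomial.aeval ![Polynomial.C (MvPolynomial.C b) * Polynomial.X +
          Polynomial.C (MvPolynomial.X 0), Polynomial.C (MvPolynomial.X 1)] g =
      Polynomial.C h := by
  have _ := ha
  have ha' : (a : ℂ) ≠ 0 := fun h => ha0 (Subtype.ext h)
  have hb' : (b : ℂ) ≠ 0 := fun h => hb0 (Subtype.ext h)
  rw [sub_eq, sub_eq]
  by_cases hN : (hat f).natDegree = 0
  · -- `f` does not contain the first variable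
    have hc : hat f = C ((hat f).coeff 0) := Polynomial.eq_C_of_natDegree_eq_zero hN
    set c0 := (hat f).coeff 0 with hc0
    have hne : ∀ t : ℝ, phi t c0 ≠ 0 := by
      intro t h3
      apply (of_plane hf t).1
      rw [hc, Polynomial.map_C, h3, Polynomial.C_0]
    have hh : ∀ t : ℝ, (hat (rho c0)).map (phi t) = C (phi t c0) := by
      intro t
      rw [← psi_eq]
      exact congrArg (fun G => G c0) (psi_rho t)
    refine ⟨rho c0, mem_plane _ 0 (fun t => ?_) (Or.inl fun t z hz => ?_), 1, 0, ?_⟩
    · rw [hh]
      exact ⟨Polynomial.C_ne_zero.2 (hne t), Polynomial.natDegree_C _⟩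
    · rw [hh, Polynomial.eval_C] at hz
      exact absurd hz (hne t)
    · rw [one_mul, zero_mul, add_zero, hc, Polynomial.map_C, Polynomial.C_comp]
  · have dF : (((hat f).map rho).comp (C (MvPolynomial.C a) * X)).natDegree ≤
        (hat f).natDegree := by
      refine Polynomial.natDegree_comp_le.trans ?_
      refine (Nat.mul_le_mul Polynomial.natDegree_map_le
        ((Polynomial.natDegree_C_mul_le _ _).trans Polynomial.natDegree_X_le)).trans ?_
      rw [mul_one]
    have dG : (((hat g).map rho).comp (C (MvPolynomial.C b) * X +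
        C (MvPolynomial.X 0))).natDegree ≤ (hat g).natDegree := by
      refine Polynomial.natDegree_comp_le.trans ?_
      refine (Nat.mul_le_mul Polynomial.natDegree_map_le
        Polynomial.natDegree_linear_le).trans ?_
      rw [mul_one]
    obtain ⟨U, V, -, -, hUV⟩ := exists_mul_add_mul_eq_C_resultant _ _ dF dG (Or.inl hN)
    refine ⟨resultant (((hat f).map rho).comp (C (MvPolynomial.C a) * X))
      (((hat g).map rho).comp (C (MvPolynomial.C b) * X + C (MvPolynomial.X 0)))
      (hat f).natDegree (hat g).natDegree,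
      mem_plane _ ((hat f).natDegree * (hat g).natDegree) (fun t => ?_) ?_, U, V, ?_⟩
    · rw [← psi_eq, psi_res f g hf a b ha0]
      have hp0 : ((hat f).map (phi t)).comp (C (a : ℂ) * X) ≠ 0 := by
        intro h3
        have h4 : (((hat f).map (phi t)).comp (C (a : ℂ) * X)).natDegree = 0 := by
          rw [h3, Polynomial.natDegree_zero]
        rw [Polynomial.natDegree_comp, Polynomial.natDegree_C_mul_X _ ha', mul_one,
          (of_plane hf t).2] at h4
        exact hN h4
      have k1 : (C (((hat f).map (phi t)).comp (C (a : ℂ) * X)).leadingCoeff : ℂ[X]) ^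
          (hat g).natDegree ≠ 0 :=
        pow_ne_zero _ (Polynomial.C_ne_zero.2 (Polynomial.leadingCoeff_ne_zero.2 hp0))
      have k2 : (0 : ℂ[X]) ∉ ((((hat f).map (phi t)).comp (C (a : ℂ) * X)).roots.map
          (fun α => ((hat g).map (phi t)).comp (X + C ((b : ℂ) * α)))) := by
        intro h3
        obtain ⟨α, -, h4⟩ := Multiset.mem_map.1 h3
        exact (of_plane hg t).1 (Polynomial.comp_X_add_C_eq_zero_iff.1 h4)
      have k3 := Multiset.prod_ne_zero k2
      refine ⟨mul_ne_zero k1 k3, ?_⟩
      rw [Polynomial.natDegree_mul k1 k3, Polynomial.natDegree_multiset_prod _ k2,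
        ← Polynomial.C_pow, Polynomial.natDegree_C, zero_add, Multiset.map_map]
      have k4 : ∀ α : ℂ, (Polynomial.natDegree ∘
          fun α => ((hat g).map (phi t)).comp (X + C ((b : ℂ) * α))) α = (hat g).natDegree := by
        intro α
        show (((hat g).map (phi t)).comp (X + C ((b : ℂ) * α))).natDegree = _
        rw [Polynomial.natDegree_comp, Polynomial.natDegree_X_add_C, mul_one, (of_plane hg t).2]
      rw [Multiset.map_congr rfl fun α _ => k4 α, Multiset.map_const', Multiset.sum_replicate,
        smul_eq_mul, ← (IsAlgClosed.splits _).natDegree_eq_card_roots, Polynomial.natDegree_comp,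
        Polynomial.natDegree_C_mul_X _ ha', mul_one, (of_plane hf t).2]
    · -- the position of the roots
      have key : ∀ (t : ℝ) (z : ℂ), ((hat (resultant (((hat f).map rho).comp
          (C (MvPolynomial.C a) * X)) (((hat g).map rho).comp (C (MvPolynomial.C b) * X +
          C (MvPolynomial.X 0))) (hat f).natDegree (hat g).natDegree)).map (phi t)).eval z = 0 →
          z.im / (b : ℂ).re < 0 := by
        intro t z hz
        rw [← psi_eq, psi_res f g hf a b ha0, Polynomial.eval_mul, Polynomial.eval_pow,
          Polynomial.eval_C, Polynomial.eval_multiset_prod, Multiset.map_map] at hz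
        have hp0 : ((hat f).map (phi t)).comp (C (a : ℂ) * X) ≠ 0 := by
          intro h3
          have h4 : (((hat f).map (phi t)).comp (C (a : ℂ) * X)).natDegree = 0 := by
            rw [h3, Polynomial.natDegree_zero]
          rw [Polynomial.natDegree_comp, Polynomial.natDegree_C_mul_X _ ha', mul_one,
            (of_plane hf t).2] at h4
          exact hN h4
        rcases mul_eq_zero.1 hz with h3 | h3
        · exact absurd h3 (pow_ne_zero _ (Polynomial.leadingCoeff_ne_zero.2 hp0))
        · obtain ⟨α, hα, h4⟩ := Multiset.mem_map.1 (Multiset.prod_eq_zero_iff.1 h3)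
          have h5 : (((hat g).map (phi t)).comp (X + C ((b : ℂ) * α))).eval z = 0 := h4
          rw [Polynomial.eval_comp, Polynomial.eval_add, Polynomial.eval_X,
            Polynomial.eval_C] at h5
          have h6 := (Polynomial.mem_roots'.1 hα).2
          rw [Polynomial.IsRoot, Polynomial.eval_comp, Polynomial.eval_mul, Polynomial.eval_C,
            Polynomial.eval_X, ← val_eq] at h6
          have h7 := h1 t α h6
          have h8 : (b : ℂ) * (α + z / b) = z + b * α := by
            field_simp
            ring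
          have h9 := h2 t (α + z / b) (by rw [h8, val_eq]; exact h5)
          have h10 : (b : ℂ) = (((b : ℂ).re : ℝ) : ℂ) := by
            apply Complex.ext
            · simp
            · simp [hb]
          rw [h10, Complex.add_im, Complex.div_ofReal_im] at h9
          linarith
      have hbre : (b : ℂ).re ≠ 0 := by
        intro h3
        apply hb'
        exact Complex.ext h3 hb
      rcases lt_or_gt_of_ne hbre with h3 | h3
      · left
        intro t z hz
        have h4 := key t z hz
        by_contra h5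
        push Not at h5
        exact absurd (div_nonneg_of_nonpos h5 h3.le) (not_le.2 h4)
      · right
        intro t z hz
        have h4 := key t z hz
        by_contra h5
        push Not at h5
        exact absurd (div_nonneg h5 h3.le) (not_le.2 h4)
    · rw [mul_comm U, mul_comm V]
      exact hUV

end HPR
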