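import Pool.Agent.HPR.RidgeOf
import Pool.Agent.HPR.Res

/-!
# The family `f(c . x, t)` is half-plane reducible
-/

set_option autoImplicit false

namespace HPR

open MvPolynomial LRP

/-- RIDGE -/
theorem ridge (n : ℕ) : ∃ S : Set (MvPolynomial (Fin (n + 1)) QB), Red (n + 1) S ∧
    RidgeFam n ⊆ (Prods S : Set (MvPolynomial (Fin (n + 1)) QB)) :=
  ridge_of res n

end HPR
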