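import Pool.Agent.HPR.Defs
import Pool.Agent.LRP.Main
import Pool.Agent.LRP.Curve
import Pool.Agent.LRP.Two

/-!
# The family `f(c . x, t)` is half-plane reducible
-/

set_option autoImplicit false

namespace HPR

open MvPolynomial LRP

/-- The statement of `HPR.res`. -/
def StRes : Prop := ∀ (f g : MvPolynomial (Fin 2) QB), f ∈ PlaneFam → g ∈ PlaneFam → ∀ (a b : QB),
    (a : ℂ).im = 0 → (b : ℂ).im = 0 → a ≠ 0 → b ≠ 0 →
    (∀ (t : ℝ) (z : ℂ), MvPolynomial.aeval ![(a : ℂ) * z, (t : ℂ)] f = 0 → 0 < z.im) →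
    (∀ (t : ℝ) (z : ℂ), MvPolynomial.aeval ![(b : ℂ) * z, (t : ℂ)] g = 0 → z.im < 0) →
    ∃ h ∈ PlaneFam, ∃ U V : Polynomial (MvPolynomial (Fin 2) QB),
      U * MvPolynomial.aeval ![Polynomial.C (MvPolynomial.C a) * Polynomial.X,
          Polynomial.C (MvPolynomial.X 1)] f +
        V * MvPolynomial.aeval ![Polynomial.C (MvPolynomial.C b) * Polynomial.X +
          Polynomial.C (MvPolynomial.X 0), Polynomial.C (MvPolynomial.X 1)] g =
      Polynomial.C h

/-- `f(c . x, t)` -/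
noncomputable def rf {n : ℕ} (c : Fin n → QB) (f : MvPolynomial (Fin 2) QB) :
    MvPolynomial (Fin (n + 1)) QB :=
  MvPolynomial.aeval ![∑ k : Fin n, C (c k) * X k.castSucc, X (Fin.last n)] f

theorem rg_aeval {R B : Type*} [CommSemiring R] [Algebra QB R] [CommSemiring B] [Algebra QB B]
    (φ : R →ₐ[QB] B) (a b : R) (f : MvPolynomial (Fin 2) QB) :
    φ (MvPolynomial.aeval ![a, b] f) = MvPolynomial.aeval ![φ a, φ b] f := by
  have h : φ.comp (MvPolynomial.aeval ![a, b]) = MvPolynomial.aeval ![φ a, φ b] := by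
    apply MvPolynomial.algHom_ext
    intro i
    fin_cases i <;> simp
  exact DFunLike.congr_fun h f

theorem rg_evz (f : MvPolynomial (Fin 2) QB) (z : ℂ) (x : Fin 1 → ℝ) :
    evz f z x = MvPolynomial.aeval ![z, ((x 0 : ℝ) : ℂ)] f := by
  unfold evz
  congr 2
  funext i
  fin_cases i <;> rfl

theorem rg_up {f : MvPolynomial (Fin 2) QB} :
    Up f ↔ ∀ (t : ℝ) (z : ℂ), MvPolynomial.aeval ![z, (t : ℂ)] f = 0 → 0 < z.im :=
  ⟨fun h t z hz => h (fun _ => t) z (by rw [rg_evz]; exact hz),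
    fun h x z hz => h (x 0) z (by rw [← rg_evz]; exact hz)⟩

theorem rg_low {f : MvPolynomial (Fin 2) QB} :
    Low f ↔ ∀ (t : ℝ) (z : ℂ), MvPolynomial.aeval ![z, (t : ℂ)] f = 0 → z.im < 0 :=
  ⟨fun h t z hz => h (fun _ => t) z (by rw [rg_evz]; exact hz),
    fun h x z hz => h (x 0) z (by rw [← rg_evz]; exact hz)⟩

theorem rg_real {f : MvPolynomial (Fin 2) QB} (hf : f ∈ PlaneFam) (y t : ℝ) :
    MvPolynomial.aeval ![(y : ℂ), (t : ℂ)] f ≠ 0 := by
  intro h
  rcases hf.2 with h1 | h1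
  · have := rg_up.1 h1 t y h
    simp at this
  · have := rg_low.1 h1 t y h
    simp at this

theorem rg_ofReal {a : QB} (ha : (a : ℂ).im = 0) : (a : ℂ) = (((a : ℂ).re : ℝ) : ℂ) :=
  Complex.ext rfl ha

theorem rg_algMap (a : QB) : (algebraMap QB ℂ) a = (a : ℂ) := rfl

theorem rg_ev {n : ℕ} (c : Fin n → QB) (hc : ∀ k, (c k : ℂ).im = 0)
    (f : MvPolynomial (Fin 2) QB) (x : Fin (n + 1) → ℝ) :
    ev (rf c f) x = MvPolynomial.aeval ![((∑ k : Fin n, (c k : ℂ).re * x k.castSucc : ℝ) : ℂ),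
      ((x (Fin.last n) : ℝ) : ℂ)] f := by
  unfold ev rf
  rw [rg_aeval]
  have e1 : (MvPolynomial.aeval (R := QB) (fun k => (x k : ℂ)))
      (∑ k : Fin n, C (c k) * X k.castSucc) =
      ((∑ k : Fin n, (c k : ℂ).re * x k.castSucc : ℝ) : ℂ) := by
    rw [map_sum, Complex.ofReal_sum]
    refine Finset.sum_congr rfl fun k _ => ?_
    rw [map_mul, MvPolynomial.aeval_C, MvPolynomial.aeval_X, Complex.ofReal_mul, rg_algMap,
      rg_ofReal (hc k)]
    simp
  rw [e1, MvPolynomial.aeval_X]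

theorem rg_evz_rf {n : ℕ} (c : Fin (n + 1) → QB) (hc : ∀ k, (c k : ℂ).im = 0)
    (f : MvPolynomial (Fin 2) QB) (z : ℂ) (x : Fin (n + 1) → ℝ) :
    evz (rf c f) z x = MvPolynomial.aeval ![(c 0 : ℂ) * z +
      ((∑ k : Fin n, (c k.succ : ℂ).re * x k.castSucc : ℝ) : ℂ),
      ((x (Fin.last n) : ℝ) : ℂ)] f := by
  unfold evz rf
  rw [rg_aeval]
  have e1 : (MvPolynomial.aeval (R := QB)
      (Fin.cons z (fun k => (x k : ℂ)) : Fin (n + 1 + 1) → ℂ))
      (∑ k : Fin (n + 1), C (c k) * X k.castSucc) = (c 0 : ℂ) * z +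
      ((∑ k : Fin n, (c k.succ : ℂ).re * x k.castSucc : ℝ) : ℂ) := by
    rw [map_sum, Complex.ofReal_sum, Fin.sum_univ_succ]
    congr 1
    · rw [map_mul, MvPolynomial.aeval_C, MvPolynomial.aeval_X, rg_algMap, Fin.castSucc_zero,
        Fin.cons_zero]
    · refine Finset.sum_congr rfl fun k _ => ?_
      rw [map_mul, MvPolynomial.aeval_C, MvPolynomial.aeval_X, Complex.ofReal_mul, rg_algMap,
        ← Fin.succ_castSucc, Fin.cons_succ, rg_ofReal (hc k.succ)]
      simp
  rw [e1, MvPolynomial.aeval_X, ← Fin.succ_last, Fin.cons_succ]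

theorem rg_last {n : ℕ} {f : MvPolynomial (Fin 2) QB} (hf : f ∈ PlaneFam) (c : Fin n → QB)
    (hc : ∀ k, c k = 0) : rf c f ∈ Prods (LastLin n) := by
  have h0 : (∑ k : Fin n, C (c k) * X k.castSucc : MvPolynomial (Fin (n + 1)) QB) = 0 := by
    rw [Finset.sum_eq_zero]
    intro k _
    rw [hc k, map_zero, zero_mul]
  have h1 : rf c f = Polynomial.aeval (X (Fin.last n))
      (MvPolynomial.aeval ![(0 : Polynomial QB), Polynomial.X] f) := by
    rw [rg_aeval (Polynomial.aeval (X (Fin.last n) : MvPolynomial (Fin (n + 1)) QB)),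
      map_zero, Polynomial.aeval_X]
    unfold rf
    rw [h0]
  rw [h1]
  refine fac n _ fun t => ?_
  rw [rg_aeval (Polynomial.aeval (t : ℂ)), map_zero, Polynomial.aeval_X]
  have := rg_real hf 0 t
  rwa [Complex.ofReal_zero] at this

theorem rg_fse_C {n : ℕ} (a : QB) :
    finSuccEquiv QB n (C a) = Polynomial.C (C a) :=
  (finSuccEquiv QB n).commutes a

theorem rg_fse_rename {n : ℕ} (G : MvPolynomial (Fin n) QB) :
    finSuccEquiv QB n (rename Fin.succ G) = Polynomial.C G := by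
  induction G using MvPolynomial.induction_on with
  | C a => rw [rename_C, rg_fse_C]
  | add p q hp hq => rw [map_add, map_add, hp, hq, map_add]
  | mul_X p i hp => rw [map_mul, map_mul, hp, rename_X, finSuccEquiv_X_succ, map_mul]

theorem rg_lc_rename {n : ℕ} (G : MvPolynomial (Fin n) QB) : lc (rename Fin.succ G) = G := by
  unfold lc
  rw [rg_fse_rename, Polynomial.leadingCoeff_C]

theorem rg_evz_rename {n : ℕ} (G : MvPolynomial (Fin n) QB) (z : ℂ) (x : Fin n → ℝ) :
    evz (rename Fin.succ G) z x = ev G x := by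
  unfold evz ev
  rw [aeval_rename]
  rfl

theorem rg_up_rename {n : ℕ} {G : MvPolynomial (Fin n) QB} (h : ∀ x, ev G x ≠ 0) :
    Up (rename Fin.succ G) := by
  intro x z hz
  rw [rg_evz_rename] at hz
  exact absurd hz (h x)

/-- The substitution in the second variable. -/
noncomputable def th (n : ℕ) : MvPolynomial (Fin 1) QB →+* MvPolynomial (Fin (n + 1)) QB :=
  (rename (fun _ : Fin 1 => Fin.last n) :
    MvPolynomial (Fin 1) QB →ₐ[QB] MvPolynomial (Fin (n + 1)) QB)

theorem rg_comp_X {n : ℕ} (q : Polynomial (MvPolynomial (Fin (n + 1)) QB)) (i : Fin 2) :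
    (![q, Polynomial.C (X (Fin.last n))] : Fin 2 → Polynomial (MvPolynomial (Fin (n + 1)) QB)) i =
      ((finSuccEquiv QB 1 (X i)).map (th n)).comp q := by
  refine Fin.cases ?_ (fun j => ?_) i
  · rw [finSuccEquiv_X_zero, Polynomial.map_X, Polynomial.X_comp]
    rfl
  · rw [finSuccEquiv_X_succ, Polynomial.map_C, Polynomial.C_comp]
    have h1 : th n (X j) = X (Fin.last n) := by
      unfold th
      rw [RingHom.coe_coe, rename_X]
    rw [h1, Subsingleton.elim j 0]
    rfl

theorem rg_comp {n : ℕ} (q : Polynomial (MvPolynomial (Fin (n + 1)) QB))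
    (f : MvPolynomial (Fin 2) QB) :
    MvPolynomial.aeval ![q, Polynomial.C (X (Fin.last n))] f =
      ((finSuccEquiv QB 1 f).map (th n)).comp q := by
  induction f using MvPolynomial.induction_on with
  | C a =>
    rw [rg_fse_C, Polynomial.map_C, Polynomial.C_comp, MvPolynomial.aeval_C]
    unfold th
    rw [RingHom.coe_coe, rename_C]
    rfl
  | add p q' hp hq => rw [map_add, map_add, hp, hq, Polynomial.map_add, Polynomial.add_comp]
  | mul_X p i hp =>
    rw [map_mul, map_mul, hp, Polynomial.map_mul, Polynomial.mul_comp, MvPolynomial.aeval_X,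
      rg_comp_X]

theorem rg_fse_aeval {n : ℕ} (a b : MvPolynomial (Fin (n + 1)) QB) (f : MvPolynomial (Fin 2) QB) :
    finSuccEquiv QB n (MvPolynomial.aeval ![a, b] f) =
      MvPolynomial.aeval ![finSuccEquiv QB n a, finSuccEquiv QB n b] f := by
  induction f using MvPolynomial.induction_on with
  | C c => rw [MvPolynomial.aeval_C, MvPolynomial.aeval_C, AlgEquiv.commutes]
  | add p q hp hq => rw [map_add, map_add, hp, hq, map_add]
  | mul_X p i hp =>
    rw [map_mul, map_mul, hp, map_mul, MvPolynomial.aeval_X, MvPolynomial.aeval_X]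
    refine congrArg (fun w => _ * w) ?_
    fin_cases i <;> rfl

theorem rg_fse_form {n : ℕ} (c : Fin (n + 1) → QB) :
    finSuccEquiv QB (n + 1) (∑ k : Fin (n + 1), C (c k) * X k.castSucc) =
      Polynomial.C (C (c 0)) * Polynomial.X +
        Polynomial.C (∑ k : Fin n, C (c k.succ) * X k.castSucc) := by
  rw [map_sum, Fin.sum_univ_succ, map_sum, Fin.castSucc_zero, map_mul, rg_fse_C,
    finSuccEquiv_X_zero]
  refine congrArg (fun w => Polynomial.C (C (c 0)) * Polynomial.X + w) ?_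
  refine Finset.sum_congr rfl fun k _ => ?_
  rw [map_mul, rg_fse_C, ← Fin.succ_castSucc, finSuccEquiv_X_succ, map_mul]

theorem rg_fse_last (n : ℕ) : finSuccEquiv QB (n + 1) (X (Fin.last (n + 1))) =
    Polynomial.C (X (Fin.last n)) := by
  rw [← Fin.succ_last, finSuccEquiv_X_succ]

theorem rg_fse_rf {n : ℕ} (c : Fin (n + 1) → QB) (f : MvPolynomial (Fin 2) QB) :
    finSuccEquiv QB (n + 1) (rf c f) = ((finSuccEquiv QB 1 f).map (th n)).comp
      (Polynomial.C (C (c 0)) * Polynomial.X +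
        Polynomial.C (∑ k : Fin n, C (c k.succ) * X k.castSucc)) := by
  rw [← rg_comp]
  unfold rf
  rw [rg_fse_aeval, rg_fse_form, rg_fse_last]

theorem rg_lc {n : ℕ} (c : Fin (n + 1) → QB) (h0 : c 0 ≠ 0) {f : MvPolynomial (Fin 2) QB}
    (hf : f ∈ PlaneFam) : lc (rf c f) ∈ Prods (LastLin n) := by
  have hinj : Function.Injective (th n) :=
    rename_injective _ fun i j _ => Subsingleton.elim i j
  have hC : (C (c 0) : MvPolynomial (Fin (n + 1)) QB) ≠ 0 := by
    rw [Ne, C_eq_zero]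
    exact h0
  have hdeg : (Polynomial.C (C (c 0)) * Polynomial.X +
        Polynomial.C (∑ k : Fin n, C (c k.succ) * X k.castSucc) :
        Polynomial (MvPolynomial (Fin (n + 1)) QB)).natDegree = 1 :=
    Polynomial.natDegree_linear hC
  have hl : (Polynomial.C (C (c 0)) * Polynomial.X +
        Polynomial.C (∑ k : Fin n, C (c k.succ) * X k.castSucc) :
        Polynomial (MvPolynomial (Fin (n + 1)) QB)).leadingCoeff = C (c 0) :=
    Polynomial.leadingCoeff_linear hC
  have h1 : lc (rf c f) = th n (lc f) * C (c 0) ^ ((finSuccEquiv QB 1 f).map (th n)).natDegree := by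
    unfold lc
    rw [rg_fse_rf, Polynomial.leadingCoeff_comp (by rw [hdeg]; exact one_ne_zero), hl,
      Polynomial.leadingCoeff_map_of_injective hinj]
  rw [h1]
  refine mul_mem ?_ (pow_mem (C_mem_prods h0) _)
  obtain ⟨b, hb⟩ := tw_one (lc f)
  have h2 : th n (lc f) = Polynomial.aeval (X (Fin.last n)) b := by
    rw [hb]
    unfold th
    rw [RingHom.coe_coe, ← Polynomial.aeval_algHom_apply, rename_X]
  rw [h2]
  refine fac n b fun t => ?_
  have h3 := hf.1 fun _ => t
  rw [hb] at h3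
  unfold ev at h3
  rw [← Polynomial.aeval_algHom_apply, MvPolynomial.aeval_X] at h3
  exact h3

theorem rg_side {n : ℕ} (c : Fin (n + 1) → QB) (hc : ∀ k, (c k : ℂ).im = 0) (h0 : c 0 ≠ 0)
    {f : MvPolynomial (Fin 2) QB} (hf : f ∈ PlaneFam) : Up (rf c f) ∨ Low (rf c f) := by
  have hr : (c 0 : ℂ).re ≠ 0 := by
    intro h1
    apply h0
    apply Subtype.ext
    exact Complex.ext h1 (hc 0)
  have key : ∀ (z : ℂ) (r : ℝ), ((c 0 : ℂ) * z + (r : ℂ)).im = (c 0 : ℂ).re * z.im := by
    intro z r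
    rw [Complex.add_im, Complex.mul_im, hc 0, Complex.ofReal_im]
    ring
  rcases hf.2 with h1 | h1 <;> rcases lt_or_gt_of_ne hr with h2 | h2
  · right
    intro x z hz
    rw [rg_evz_rf c hc] at hz
    have h3 := rg_up.1 h1 _ _ hz
    rw [key] at h3
    by_contra h4
    nlinarith [mul_nonneg (neg_pos.2 h2).le (not_lt.1 h4)]
  · left
    intro x z hz
    rw [rg_evz_rf c hc] at hz
    have h3 := rg_up.1 h1 _ _ hz
    rw [key] at h3
    exact (pos_iff_pos_of_mul_pos h3).1 h2
  · left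
    intro x z hz
    rw [rg_evz_rf c hc] at hz
    have h3 := rg_low.1 h1 _ _ hz
    rw [key] at h3
    by_contra h4
    nlinarith [mul_nonneg (neg_pos.2 h2).le (neg_nonneg.2 (not_lt.1 h4))]
  · right
    intro x z hz
    rw [rg_evz_rf c hc] at hz
    have h3 := rg_low.1 h1 _ _ hz
    rw [key] at h3
    by_contra h4
    nlinarith [mul_nonneg h2.le (not_lt.1 h4)]

/-- The family used in the proof. -/
def RS (n : ℕ) : Set (MvPolynomial (Fin (n + 1)) QB) :=
  LastLin n ∪ {F | ∃ (c : Fin n → QB) (f : MvPolynomial (Fin 2) QB), (∀ k, (c k : ℂ).im = 0) ∧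
    (∃ k, c k ≠ 0) ∧ f ∈ PlaneFam ∧ F = rf c f}

theorem rg_mem {n : ℕ} (c : Fin n → QB) (hc : ∀ k, (c k : ℂ).im = 0)
    {f : MvPolynomial (Fin 2) QB} (hf : f ∈ PlaneFam) : rf c f ∈ Prods (RS n) := by
  by_cases h : ∀ k, c k = 0
  · exact prods_mono Set.subset_union_left (rg_last hf c h)
  · push Not at h
    exact mem_prods (Or.inr ⟨c, f, hc, h, hf, rfl⟩)

theorem rg_base : Red 1 (RS 0) := by
  refine ⟨∅, fun F hF => absurd hF (Set.notMem_empty F), ?_, ?_⟩
  · rintro F (⟨z, hz, rfl⟩ | ⟨c, f, hc, ⟨k, hk⟩, hf, rfl⟩)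
    · constructor
      · have : lc (X (Fin.last 0) - C z : MvPolynomial (Fin (0 + 1)) QB) = 1 := by
          unfold lc
          have h1 : finSuccEquiv QB 0 (X (Fin.last 0) - C z) =
              Polynomial.X - Polynomial.C (C z) := by
            rw [map_sub, rg_fse_C]
            congr 1
            exact finSuccEquiv_X_zero
          rw [h1, Polynomial.leadingCoeff_X_sub_C]
        rw [this]
        exact one_mem _
      · have key : ∀ (x : Fin 0 → ℝ) (w : ℂ),
            evz (X (Fin.last 0) - C z : MvPolynomial (Fin (0 + 1)) QB) w x = w - z := by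
          intro x w
          unfold evz
          rw [map_sub, MvPolynomial.aeval_X, MvPolynomial.aeval_C]
          rfl
        rcases lt_or_gt_of_ne hz with h | h
        · right
          intro x w hw
          rw [key, sub_eq_zero] at hw
          rw [hw]
          exact h
        · left
          intro x w hw
          rw [key, sub_eq_zero] at hw
          rw [hw]
          exact h
    · exact k.elim0
  · rintro F (⟨z, hz, rfl⟩ | ⟨c, f, hc, ⟨k, hk⟩, hf, rfl⟩) F'
      (⟨z', hz', rfl⟩ | ⟨c', f', hc', ⟨k', hk'⟩, hf', rfl⟩) hU hL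
    · have key : ∀ (x : Fin 0 → ℝ) (w : QB),
          evz (X (Fin.last 0) - C w : MvPolynomial (Fin (0 + 1)) QB) w x = 0 := by
        intro x w
        unfold evz
        rw [map_sub, MvPolynomial.aeval_X, MvPolynomial.aeval_C]
        exact sub_self _
      have h1 := hU (fun k => k.elim0) z (key _ z)
      have h2 := hL (fun k => k.elim0) z' (key _ z')
      refine ⟨1, -1, C (z' - z), C_mem_prods ?_, ?_⟩
      · intro h3
        rw [sub_eq_zero] at h3
        rw [h3] at h2
        exact absurd h1 (not_lt.2 h2.le)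
      · rw [rename_C, map_sub]
        ring
    · exact k'.elim0
    all_goals exact k.elim0

theorem rg_step (hres : StRes) (n : ℕ) (h : Red (n + 1) (RS n)) :
    Red (n + 1 + 1) (RS (n + 1)) := by
  -- the shape of the members
  have hshape : ∀ F ∈ RS (n + 1), (∃ G ∈ Prods (RS n), (∀ x, ev G x ≠ 0) ∧
      F = rename Fin.succ G) ∨ ∃ (c : Fin (n + 1) → QB) (f : MvPolynomial (Fin 2) QB),
        (∀ k, (c k : ℂ).im = 0) ∧ c 0 ≠ 0 ∧ f ∈ PlaneFam ∧ F = rf c f := by
    rintro F (⟨z, hz, rfl⟩ | ⟨c, f, hc, ⟨k, hk⟩, hf, rfl⟩)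
    · left
      refine ⟨X (Fin.last n) - C z, mem_prods (Or.inl ⟨z, hz, rfl⟩), fun x => ?_, lastLin_succ z⟩
      rw [ev_sub, ev_C]
      have : ev (X (Fin.last n) : MvPolynomial (Fin (n + 1)) QB) x =
          ((x (Fin.last n) : ℝ) : ℂ) := by
        unfold ev
        rw [MvPolynomial.aeval_X]
      rw [this, sub_ne_zero]
      intro h1
      apply hz
      rw [← h1, Complex.ofReal_im]
    · by_cases h0 : c 0 = 0
      · left
        refine ⟨rf (fun k => c k.succ) f, rg_mem _ (fun k => hc _) hf, fun x => ?_, ?_⟩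
        · rw [rg_ev _ fun k => hc _]
          exact rg_real hf _ _
        · unfold rf
          rw [rg_aeval (rename Fin.succ : MvPolynomial (Fin (n + 1)) QB →ₐ[QB]
            MvPolynomial (Fin (n + 1 + 1)) QB), rename_X, Fin.succ_last, map_sum,
            Fin.sum_univ_succ, h0, map_zero, zero_mul, zero_add]
          congr 3
          refine Finset.sum_congr rfl fun k _ => ?_
          rw [map_mul, rename_C, rename_X, Fin.succ_castSucc]
      · right
        exact ⟨c, f, hc, h0, hf, rfl⟩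
  refine ⟨RS n, h, ?_, ?_⟩
  · intro F hF
    rcases hshape F hF with ⟨G, hG, hG0, rfl⟩ | ⟨c, f, hc, h0, hf, rfl⟩
    · rw [rg_lc_rename]
      exact ⟨hG, Or.inl (rg_up_rename hG0)⟩
    · exact ⟨prods_mono Set.subset_union_left (rg_lc c h0 hf), rg_side c hc h0 hf⟩
  · intro F hF F' hF' hU hL
    rcases hshape F hF with ⟨G, hG, hG0, rfl⟩ | ⟨c, f, hc, h0, hf, rfl⟩
    · exact ⟨1, 0, G, hG, by ring⟩
    rcases hshape F' hF' with ⟨G, hG, hG0, rfl⟩ | ⟨d, g, hd, hd0, hg, rfl⟩
    · exact ⟨0, 1, G, hG, by ring⟩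
    have hsn : ∀ (c : Fin (n + 1) → QB) (t : ℝ), (∑ k : Fin n, (c k.succ : ℂ).re *
        (Fin.snoc (fun _ => 0) t : Fin (n + 1) → ℝ) k.castSucc : ℝ) = 0 := by
      intro c t
      refine Finset.sum_eq_zero fun k _ => ?_
      rw [Fin.snoc_castSucc, mul_zero]
    obtain ⟨h', hh', U, V, hUV⟩ := hres f g hf hg (c 0) (d 0) (hc 0) (hd 0) h0 hd0
      (fun t z hz => hU (Fin.snoc (fun _ => 0) t) z (by
        rw [rg_evz_rf c hc, hsn, Fin.snoc_last, Complex.ofReal_zero, add_zero]
        exact hz))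
      (fun t z hz => hL (Fin.snoc (fun _ => 0) t) z (by
        rw [rg_evz_rf d hd, hsn, Fin.snoc_last, Complex.ofReal_zero, add_zero]
        exact hz))
    obtain ⟨e, he⟩ : ∃ e : Fin n → QB, ∀ k, e k = d k.succ - d 0 * (c 0)⁻¹ * c k.succ :=
      ⟨_, fun _ => rfl⟩
    have hereal : ∀ k, (e k : ℂ).im = 0 := by
      intro k
      have e1 : (e k : ℂ) = (d k.succ : ℂ) - (d 0 : ℂ) * (c 0 : ℂ)⁻¹ * (c k.succ : ℂ) := by
        rw [he k]
        rfl
      rw [e1, rg_ofReal (hd k.succ), rg_ofReal (hd 0), rg_ofReal (hc 0), rg_ofReal (hc k.succ)]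
      rw [← Complex.ofReal_inv, ← Complex.ofReal_mul, ← Complex.ofReal_mul, ← Complex.ofReal_sub,
        Complex.ofReal_im]
    obtain ⟨Y, hY⟩ : ∃ Y : MvPolynomial (Fin (n + 1 + 1)) QB,
        Y = ∑ k : Fin n, C (e k) * X k.succ.castSucc := ⟨_, rfl⟩
    obtain ⟨S, hS⟩ : ∃ S : MvPolynomial (Fin (n + 1 + 1)) QB,
        S = X 0 + C ((c 0)⁻¹) * ∑ k : Fin n, C (c k.succ) * X k.succ.castSucc := ⟨_, rfl⟩
    obtain ⟨Ψ, hΨC, hΨX⟩ : ∃ Ψ : Polynomial (MvPolynomial (Fin 2) QB) →ₐ[QB]
        MvPolynomial (Fin (n + 1 + 1)) QB,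
        (∀ p, Ψ (Polynomial.C p) = MvPolynomial.aeval ![Y, X (Fin.last (n + 1))] p) ∧
        Ψ Polynomial.X = S := by
      refine ⟨Polynomial.eval₂AlgHom (MvPolynomial.aeval ![Y, X (Fin.last (n + 1))]) S
        (fun _ => Commute.all _ _), fun p => ?_, ?_⟩
      · exact Polynomial.eval₂_C _ _
      · exact Polynomial.eval₂_X _ _
    have hcS : C (c 0) * S = ∑ k : Fin (n + 1), C (c k) * X k.castSucc := by
      rw [hS, Fin.sum_univ_succ, Fin.castSucc_zero, mul_add, ← mul_assoc, ← C_mul,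
        mul_inv_cancel₀ h0, C_1, one_mul]
    have hdS : C (d 0) * S + Y = ∑ k : Fin (n + 1), C (d k) * X k.castSucc := by
      rw [hS, hY, Fin.sum_univ_succ, Fin.castSucc_zero, mul_add, add_assoc (C (d 0) * X 0)]
      congr 1
      rw [← mul_assoc, ← C_mul, Finset.mul_sum, ← Finset.sum_add_distrib]
      refine Finset.sum_congr rfl fun k _ => ?_
      rw [← mul_assoc, ← C_mul, ← add_mul, ← C_add, he k]
      congr 2
      ring
    have hf' : Ψ (MvPolynomial.aeval ![Polynomial.C (MvPolynomial.C (c 0)) * Polynomial.X,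
          Polynomial.C (MvPolynomial.X 1)] f) = rf c f := by
      rw [rg_aeval (R := Polynomial (MvPolynomial (Fin 2) QB))
        (B := MvPolynomial (Fin (n + 1 + 1)) QB) Ψ, map_mul, hΨC, hΨC, hΨX, MvPolynomial.aeval_C,
        MvPolynomial.aeval_X]
      unfold rf
      rw [← hcS]
      rfl
    have hg' : Ψ (MvPolynomial.aeval ![Polynomial.C (MvPolynomial.C (d 0)) * Polynomial.X +
          Polynomial.C (MvPolynomial.X 0), Polynomial.C (MvPolynomial.X 1)] g) = rf d g := by
      rw [rg_aeval (R := Polynomial (MvPolynomial (Fin 2) QB))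
        (B := MvPolynomial (Fin (n + 1 + 1)) QB) Ψ, map_add, map_mul, hΨC, hΨC, hΨC, hΨX,
        MvPolynomial.aeval_C, MvPolynomial.aeval_X, MvPolynomial.aeval_X]
      unfold rf
      rw [← hdS]
      rfl
    have hh : Ψ (Polynomial.C h') = rename Fin.succ (rf e h') := by
      rw [hΨC]
      unfold rf
      rw [rg_aeval (rename Fin.succ : MvPolynomial (Fin (n + 1)) QB →ₐ[QB]
        MvPolynomial (Fin (n + 1 + 1)) QB), rename_X, Fin.succ_last, map_sum, hY]
      congr 3
      refine Finset.sum_congr rfl fun k _ => ?_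
      rw [map_mul, rename_C, rename_X, Fin.succ_castSucc]
    refine ⟨Ψ U, Ψ V, rf e h', rg_mem e hereal hh', ?_⟩
    rw [← hf', ← hg', ← map_mul, ← map_mul, ← map_add, hUV, hh]

theorem ridge_of (hres : StRes) (n : ℕ) : ∃ S : Set (MvPolynomial (Fin (n + 1)) QB),
    Red (n + 1) S ∧ RidgeFam n ⊆ (Prods S : Set (MvPolynomial (Fin (n + 1)) QB)) := by
  refine ⟨RS n, ?_, ?_⟩
  · induction n with
    | zero => exact rg_base
    | succ n ih => exact rg_step hres n ih
  · rintro F ⟨c, f, hc, hf, rfl⟩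
    exact rg_mem c hc hf

end HPR
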